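import Mathlib
import Pool.Agent.Y126.JB.Sl2
import Pool.Agent.H204R3.SP.Full

/-!
# Triples with a single Jordan block
-/

set_option linter.unusedSectionVars false

namespace Pool.Agent.Y126.MU

open Module Finset Pool.Agent.Y126.JB Pool.Agent.H204R3.SP

variable {K : Type*} [Field K] [CharZero K] {T : Type*} [AddCommGroup T] [Module K T]

/-- A triple of operators and a basis `w 0, …, w D` in the standard form. -/
structure Prin (e h f : End K T) (D : ℕ) (w : ℕ → T) : Prop where
  e_w : ∀ i, e (w i) = w (i + 1)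
  top : w (D + 1) = 0
  h_w : ∀ i, h (w i) = (2 * (i : K) - D) • w i
  f_zero : f (w 0) = 0
  f_w : ∀ i, f (w (i + 1)) = (((i : K) + 1) * ((D : K) - i)) • w i
  span : ∀ x : T, ∃ c : ℕ → K, x = ∑ i ∈ range (D + 1), c i • w i
  indep : ∀ c : ℕ → K, ∑ i ∈ range (D + 1), c i • w i = 0 → ∀ i, i ≤ D → c i = 0

variable {e h f : End K T} {D : ℕ} {w : ℕ → T} (hp : Prin e h f D w)

include hp

theorem Prin.zero {i : ℕ} (hi : D < i) : w i = 0 := by
  obtain ⟨j, rfl⟩ := Nat.exists_eq_add_of_lt hi
  induction j with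
  | zero => exact hp.top
  | succ j ih =>
    have h1 := ih (by omega)
    have h2 := hp.e_w (D + j + 1)
    rw [h1, map_zero] at h2
    exact h2.symm

theorem Prin.ne_zero {i : ℕ} (hi : i ≤ D) : w i ≠ 0 := by
  intro h0
  have h1 := hp.indep (fun j => if j = i then 1 else 0) (by
    rw [Finset.sum_eq_single i]
    · rw [if_pos rfl, h0, smul_zero]
    · intro j _ hj
      rw [if_neg hj, zero_smul]
    · intro hi'
      exact absurd (mem_range.2 (by omega)) hi') i hi
  rw [if_pos rfl] at h1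
  exact one_ne_zero h1

theorem Prin.pow (j i : ℕ) : (e ^ j) (w i) = w (i + j) := by
  induction j with
  | zero => rfl
  | succ j ih => rw [pow_succ', Module.End.mul_apply, ih, hp.e_w]; rfl

theorem Prin.ext {M : Type*} [AddCommGroup M] [Module K M] {A B : T →ₗ[K] M}
    (h1 : ∀ i, i ≤ D → A (w i) = B (w i)) : A = B := by
  refine LinearMap.ext fun x => ?_
  obtain ⟨c, rfl⟩ := hp.span x
  rw [map_sum, map_sum]
  refine Finset.sum_congr rfl fun i hi => ?_
  rw [map_smul, map_smul, h1 i (by rw [mem_range] at hi; omega)]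

theorem Prin.pow_zero : e ^ (D + 1) = 0 := by
  refine hp.ext fun i _ => ?_
  rw [hp.pow, hp.zero (by omega), LinearMap.zero_apply]

theorem Prin.nil : IsNilpotent e := ⟨_, hp.pow_zero⟩

theorem Prin.ef : h = ad K e f := by
  refine hp.ext fun i _ => ?_
  rw [ad_apply, LinearMap.sub_apply, Module.End.mul_apply, Module.End.mul_apply, hp.h_w, hp.e_w,
    hp.f_w]
  cases i with
  | zero =>
    rw [hp.f_zero, map_zero, zero_sub, ← neg_smul]
    congr 1
    push_cast
    ring
  | succ i =>
    rw [hp.f_w, map_smul, hp.e_w, ← sub_smul]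
    congr 1
    push_cast
    ring

theorem Prin.he : ad K h e = (2 : K) • e := by
  refine hp.ext fun i _ => ?_
  rw [ad_apply, LinearMap.sub_apply, Module.End.mul_apply, Module.End.mul_apply, hp.e_w, hp.h_w,
    hp.h_w, map_smul, hp.e_w, LinearMap.smul_apply, hp.e_w, ← sub_smul]
  congr 1
  push_cast
  ring

theorem Prin.hf : ad K h f = (-2 : K) • f := by
  refine hp.ext fun i _ => ?_
  rw [ad_apply, LinearMap.sub_apply, Module.End.mul_apply, Module.End.mul_apply,
    LinearMap.smul_apply, hp.h_w, map_smul]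
  cases i with
  | zero => rw [hp.f_zero, map_zero, smul_zero, smul_zero, sub_zero]
  | succ i =>
    rw [hp.f_w, map_smul, hp.h_w, smul_smul, smul_smul, smul_smul, ← sub_smul]
    congr 1
    push_cast
    ring

/-- powers of `f` on the basis -/
theorem Prin.f_pow {j k : ℕ} (hjk : j ≤ k) (hk : k ≤ D) :
    ∃ c : K, c ≠ 0 ∧ (f ^ j) (w k) = c • w (k - j) := by
  induction j with
  | zero => exact ⟨1, one_ne_zero, by rw [_root_.pow_zero, one_smul]; rfl⟩
  | succ j ih =>
    obtain ⟨c, hc, h1⟩ := ih (by omega)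
    obtain ⟨i, hi⟩ : ∃ i, k - j = i + 1 := ⟨k - j - 1, by omega⟩
    have h3 : k - (j + 1) = i := by omega
    refine ⟨c * (((i : K) + 1) * ((D : K) - i)), ?_, ?_⟩
    · refine mul_ne_zero hc (mul_ne_zero (Nat.cast_add_one_ne_zero i) ?_)
      rw [sub_ne_zero]
      intro h4
      have h5 : D = i := Nat.cast_injective h4
      omega
    · rw [pow_succ', Module.End.mul_apply, h1, map_smul, hi, hp.f_w, smul_smul, h3]

theorem Prin.f_pow_zero {j k : ℕ} (hjk : k < j) (hk : k ≤ D) : (f ^ j) (w k) = 0 := by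
  obtain ⟨c, _, h1⟩ := hp.f_pow (le_refl k) hk
  obtain ⟨i, rfl⟩ := Nat.exists_eq_add_of_lt hjk
  rw [show k + i + 1 = i + (1 + k) by ring, pow_add, pow_add, pow_one, Module.End.mul_apply,
    Module.End.mul_apply, h1, Nat.sub_self, map_smul, hp.f_zero, smul_zero, map_zero]

section form

variable {ω : T →ₗ[K] T →ₗ[K] K} (he : ∀ u v, ω (e u) v + ω u (e v) = 0)
  (hh : ∀ u v, ω (h u) v + ω u (h v) = 0) (hnd : ∀ u, (∀ v, ω u v = 0) → u = 0)

omit hp in
include he in
theorem om_pow (j : ℕ) (u v : T) : ω ((e ^ j) u) v = (-1) ^ j * ω u ((e ^ j) v) := by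
  induction j generalizing v with
  | zero => simp
  | succ j ih =>
    rw [pow_succ', Module.End.mul_apply]
    have h1 := he ((e ^ j) u) v
    have h2 := ih (e v)
    have h3 : (e ^ j) (e v) = e ((e ^ j) v) := by
      rw [← Module.End.mul_apply, ← Module.End.mul_apply, ← pow_succ, ← pow_succ']
    rw [Module.End.mul_apply, ← h3]
    linear_combination h1 - h2

include hh in
theorem Prin.orth {i j : ℕ} (hij : i + j ≠ D) : ω (w i) (w j) = 0 := by
  have h1 := hh (w i) (w j)
  rw [hp.h_w, hp.h_w, map_smul, map_smul, LinearMap.smul_apply, smul_eq_mul, smul_eq_mul,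
    ← add_mul] at h1
  refine (mul_eq_zero.1 h1).resolve_left fun h2 => hij ?_
  have h3 : (2 : K) * ((i + j : ℕ) - (D : K)) = 0 := by
    push_cast
    linear_combination h2
  have h4 := (mul_eq_zero.1 h3).resolve_left two_ne_zero
  exact Nat.cast_injective (sub_eq_zero.1 h4)

include he hh hnd in
theorem Prin.pair : ω (w 0) (w D) ≠ 0 := by
  intro h0
  apply hp.ne_zero (Nat.zero_le D)
  refine hnd _ fun v => ?_
  obtain ⟨c, rfl⟩ := hp.span v
  rw [map_sum]
  refine Finset.sum_eq_zero fun i _ => ?_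
  rw [map_smul]
  by_cases hi : i = D
  · rw [hi, h0, smul_zero]
  · rw [hp.orth hh (by omega), smul_zero]

include he hh hnd in
theorem Prin.pair' {i : ℕ} (hi : i ≤ D) : ω (w i) (w (D - i)) ≠ 0 := by
  have h1 := om_pow he i (w 0) (w (D - i))
  rw [hp.pow, hp.pow, zero_add, Nat.sub_add_cancel hi] at h1
  rw [h1]
  exact mul_ne_zero (pow_ne_zero _ (by norm_num)) (hp.pair he hh hnd)

end form

end Pool.Agent.Y126.MU
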