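import Mathlib
import Pool.Agent.Y126.MU.Prin

/-!
# The largest power of the nilpotent element
-/

set_option linter.unusedSectionVars false

namespace Pool.Agent.Y126.MU

open Module Finset Pool.Agent.Y126.JB Pool.Agent.H204R3.SP

variable {K : Type*} [Field K] [CharZero K] {T : Type*} [AddCommGroup T] [Module K T]

theorem ad_pow_apply (f X : End K T) (j : ℕ) : (ad K f ^ j) X =
    ∑ a ∈ range (j + 1), ((-1 : K) ^ a * (j.choose a : K)) • (f ^ (j - a) * X * f ^ a) := by
  have h1 : Commute (-(LinearMap.mulRight K f)) (LinearMap.mulLeft K f) :=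
    ((LinearMap.commute_mulLeft_right (R := K) f f).symm).neg_left
  have h2 : ad K f = -(LinearMap.mulRight K f) + LinearMap.mulLeft K f := by
    rw [ad]
    abel
  rw [h2, h1.add_pow, LinearMap.sum_apply]
  refine Finset.sum_congr rfl fun a _ => ?_
  have h3 : ∀ (a : ℕ) (Y : End K T), ((-(LinearMap.mulRight K f)) ^ a) Y =
      ((-1 : K) ^ a) • (Y * f ^ a) := by
    intro a Y
    have h5 : (-(LinearMap.mulRight K f)) ^ a =
        ((-1 : K) ^ a) • (LinearMap.mulRight K f) ^ a := by
      rw [← neg_one_smul K (LinearMap.mulRight K f), smul_pow]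
    rw [h5, LinearMap.smul_apply, LinearMap.pow_mulRight, LinearMap.mulRight_apply]
  rw [Module.End.mul_apply, Module.End.mul_apply, h3, LinearMap.pow_mulLeft,
    LinearMap.mulLeft_apply]
  have h4 : ((j.choose a : ℕ) : End K (End K T)) X = (j.choose a : K) • X := by
    rw [Nat.cast_smul_eq_nsmul, ← nsmul_one, LinearMap.smul_apply, Module.End.one_apply]
  rw [h4, mul_smul_comm, smul_mul_assoc, smul_smul]

/-- Brackets with `SS`. -/
theorem br_SS {ω : T →ₗ[K] T →ₗ[K] K} {Z : End K T} (hZ : ∀ u v, ω (Z u) v + ω u (Z v) = 0)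
    (u v : T) : Z * SS ω u v - SS ω u v * Z = SS ω (Z u) v + SS ω u (Z v) := by
  refine LinearMap.ext fun x => ?_
  have h1 := hZ u x
  have h2 := hZ v x
  simp only [LinearMap.sub_apply, Module.End.mul_apply, SS_apply, map_add, map_smul,
    LinearMap.add_apply]
  rw [eq_neg_of_add_eq_zero_right h1, eq_neg_of_add_eq_zero_right h2]
  module

theorem SS_smul_left (ω : T →ₗ[K] T →ₗ[K] K) (c : K) (u v : T) :
    SS ω (c • u) v = c • SS ω u v := by
  refine LinearMap.ext fun x => ?_
  simp only [SS_apply, LinearMap.smul_apply, map_smul, smul_eq_mul]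
  module

theorem SS_add_left (ω : T →ₗ[K] T →ₗ[K] K) (u u' v : T) :
    SS ω (u + u') v = SS ω u v + SS ω u' v := by
  refine LinearMap.ext fun x => ?_
  simp only [SS_apply, LinearMap.add_apply, map_add]
  module

theorem SS_zero_left (ω : T →ₗ[K] T →ₗ[K] K) (v : T) : SS ω 0 v = 0 := by
  refine LinearMap.ext fun x => ?_
  simp only [SS_apply, LinearMap.zero_apply, map_zero, smul_zero, zero_smul, add_zero]

/-- the subspace of the vectors `x` with `SS x v` in `L` -/
def MM (ω : T →ₗ[K] T →ₗ[K] K) (L : Submodule K (End K T)) (v : T) : Submodule K T where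
  carrier := {x | SS ω x v ∈ L}
  zero_mem' := by
    rw [Set.mem_ofPred_eq, SS_zero_left]
    exact L.zero_mem
  add_mem' := by
    intro a b ha hb
    rw [Set.mem_ofPred_eq] at ha hb ⊢
    rw [SS_add_left]
    exact L.add_mem ha hb
  smul_mem' := by
    intro c a ha
    rw [Set.mem_ofPred_eq] at ha ⊢
    rw [SS_smul_left]
    exact L.smul_mem _ ha

theorem mem_MM {ω : T →ₗ[K] T →ₗ[K] K} {L : Submodule K (End K T)} {v x : T} :
    x ∈ MM ω L v ↔ SS ω x v ∈ L := Iff.rfl

variable {e h f : End K T} {D : ℕ} {w : ℕ → T} (hp : Prin e h f D w)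
  {ω : T →ₗ[K] T →ₗ[K] K} (he : ∀ u v, ω (e u) v + ω u (e v) = 0)
  (hh : ∀ u v, ω (h u) v + ω u (h v) = 0) (hf : ∀ u v, ω (f u) v + ω u (f v) = 0)
  (hnd : ∀ u, (∀ v, ω u v = 0) → u = 0) (halt : ∀ v, ω v v = 0)
  {L : Submodule K (End K T)} (hbr : ∀ Y ∈ L, ∀ Z ∈ L, Y * Z - Z * Y ∈ L)

include hp in
theorem Prin.mem_all {P : Submodule K T} (h1 : ∀ i, i ≤ D → w i ∈ P) (x : T) : x ∈ P := by
  obtain ⟨c, rfl⟩ := hp.span x
  exact P.sum_mem fun i hi => P.smul_mem _ (h1 i (by rw [mem_range] at hi; omega))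

include hp he hh hnd halt in
theorem Prin.top_eq : ∃ c : K, c ≠ 0 ∧ SS ω (w D) (w D) = c • e ^ D := by
  have hpair := hp.pair he hh hnd
  have hskew : ∀ u v, ω u v = -ω v u := by
    intro u v
    have h1 := halt (u + v)
    simp only [map_add, LinearMap.add_apply, halt, zero_add, add_zero] at h1
    linear_combination h1
  refine ⟨2 * ω (w D) (w 0), mul_ne_zero two_ne_zero ?_, ?_⟩
  · rw [hskew]
    exact neg_ne_zero.2 hpair
  · refine hp.ext fun i hi => ?_
    rw [SS_apply, LinearMap.smul_apply, hp.pow]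
    by_cases h0 : i = 0
    · subst h0
      rw [zero_add, ← add_smul, two_mul]
    · rw [hp.orth hh (by omega), zero_smul, hp.zero (i := i + D) (by omega), smul_zero, add_zero]

include hp he hh hf hnd halt hbr in
/-- **The largest power generates the symplectic Lie algebra.** -/
theorem Prin.full_of_top (hfL : f ∈ L) (htL : e ^ D ∈ L)
    (hsk : ∀ Y ∈ L, ∀ u v, ω (Y u) v + ω u (Y v) = 0) (u v : T) : SS ω u v ∈ L := by
  obtain ⟨c, hc, h1⟩ := hp.top_eq he hh hnd halt
  have hSD : SS ω (w D) (w D) ∈ L := by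
    rw [h1]
    exact L.smul_mem _ htL
  -- all elements of `L w_D`
  have hM : ∀ X ∈ L, X (w D) ∈ MM ω L (w D) := by
    intro X hX
    rw [mem_MM]
    have h2 := hbr X hX _ hSD
    rw [br_SS (hsk X hX), SS_comm ω (w D), ← two_smul K] at h2
    have h3 := L.smul_mem (2 : K)⁻¹ h2
    rwa [smul_smul, inv_mul_cancel₀ two_ne_zero, one_smul] at h3
  have had : ∀ j, (ad K f ^ j) (e ^ D) ∈ L := by
    intro j
    induction j with
    | zero => exact htL
    | succ j ih =>
      rw [pow_succ', Module.End.mul_apply]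
      exact hbr f hfL _ ih
  have hw : ∀ i, i ≤ D → w i ∈ MM ω L (w D) := by
    intro i hi
    have h2 := hM _ (had (2 * D - i))
    obtain ⟨c1, hc1, e1⟩ := hp.f_pow (le_refl D) (le_refl D)
    rw [Nat.sub_self] at e1
    obtain ⟨c2, hc2, e2⟩ := hp.f_pow (j := D - i) (k := D) (by omega) (le_refl D)
    rw [show D - (D - i) = i by omega] at e2
    have h3 : ((ad K f ^ (2 * D - i)) (e ^ D)) (w D) =
        (((-1 : K) ^ D * ((2 * D - i).choose D : K)) * c1 * c2) • w i := by
      rw [ad_pow_apply, LinearMap.sum_apply, Finset.sum_eq_single D]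
      · rw [LinearMap.smul_apply, Module.End.mul_apply, Module.End.mul_apply, e1, map_smul,
          map_smul, hp.pow, zero_add, show 2 * D - i - D = D - i by omega, e2, smul_smul,
          smul_smul]
      · intro a _ ha
        rw [LinearMap.smul_apply, Module.End.mul_apply, Module.End.mul_apply]
        rcases Nat.lt_or_ge D a with h4 | h4
        · rw [hp.f_pow_zero h4 (le_refl D), map_zero, map_zero, smul_zero]
        · obtain ⟨c3, _, e3⟩ := hp.f_pow (j := a) (k := D) h4 (le_refl D)
          rw [e3, map_smul, hp.pow, hp.zero (by omega), smul_zero, map_zero, smul_zero]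
      · intro h4
        exact absurd (mem_range.2 (by omega)) h4
    rw [h3] at h2
    have h4 : ((-1 : K) ^ D * ((2 * D - i).choose D : K)) * c1 * c2 ≠ 0 := by
      refine mul_ne_zero (mul_ne_zero (mul_ne_zero (pow_ne_zero _ (by norm_num)) ?_) hc1) hc2
      rw [Nat.cast_ne_zero]
      exact (Nat.choose_pos (by omega)).ne'
    exact (Submodule.smul_mem_iff _ h4).1 h2
  -- all vectors
  have hN : ∀ i, i ≤ D → ∀ x, SS ω x (w (D - i)) ∈ L := by
    intro i
    induction i with
    | zero => intro _ x; exact mem_MM.1 (hp.mem_all hw x)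
    | succ i ih =>
      intro hi x
      have h2 := ih (by omega)
      have h3 := hbr f hfL _ (h2 x)
      rw [br_SS hf] at h3
      have h4 := L.sub_mem h3 (h2 (f x))
      rw [add_sub_cancel_left] at h4
      obtain ⟨j, hj⟩ : ∃ j, D - i = j + 1 := ⟨D - i - 1, by omega⟩
      have h5 : D - (i + 1) = j := by omega
      rw [hj, hp.f_w, SS_comm, SS_smul_left, SS_comm] at h4
      rw [h5]
      refine (Submodule.smul_mem_iff _ ?_).1 h4
      refine mul_ne_zero (Nat.cast_add_one_ne_zero j) ?_
      rw [sub_ne_zero]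
      intro h6
      have h7 : D = j := Nat.cast_injective h6
      omega
  have h5 : v ∈ MM ω L u := by
    refine hp.mem_all (fun i hi => ?_) v
    have h6 := hN (D - i) (by omega) u
    rw [show D - (D - i) = i by omega] at h6
    rw [mem_MM, SS_comm]
    exact h6
  rw [SS_comm]
  exact h5

end Pool.Agent.Y126.MU
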