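import Mathlib
import Pool.Agent.Y126.MU.Top

/-!
# Powers of the nilpotent element
-/

set_option linter.unusedSectionVars false

namespace Pool.Agent.Y126.MU

open Module Finset Pool.Agent.Y126.JB Pool.Agent.H204R3.SP

variable {K : Type*} [Field K] [CharZero K] {T : Type*} [AddCommGroup T] [Module K T]
  [FiniteDimensional K T] {e h f : End K T} {D : ℕ} {w : ℕ → T} (hp : Prin e h f D w)

include hp in
/-- eigenvectors of `h` -/
theorem Prin.eig {m : ℕ} {x : T} (hx : h x = (2 * (m : K) - D) • x) : ∃ c : K, x = c • w m := by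
  obtain ⟨c, rfl⟩ := hp.span x
  have h1 : ∑ i ∈ range (D + 1), ((2 * (i : K) - 2 * m) * c i) • w i = 0 := by
    rw [map_sum, Finset.smul_sum, ← sub_eq_zero, ← Finset.sum_sub_distrib] at hx
    rw [← hx]
    refine Finset.sum_congr rfl fun i _ => ?_
    rw [map_smul, hp.h_w]
    module
  have h2 : ∀ i, i ≤ D → i ≠ m → c i = 0 := by
    intro i hi him
    have h3 := hp.indep _ h1 i hi
    refine (mul_eq_zero.1 h3).resolve_left fun h4 => him ?_
    have h5 : (i : K) = m := by
      have h6 : (2 : K) * (i - m) = 0 := by linear_combination h4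
      exact sub_eq_zero.1 ((mul_eq_zero.1 h6).resolve_left two_ne_zero)
    exact Nat.cast_injective h5
  by_cases hm : m ≤ D
  · refine ⟨c m, ?_⟩
    rw [Finset.sum_eq_single m]
    · intro i hi him
      rw [h2 i (by rw [mem_range] at hi; omega) him, zero_smul]
    · intro h3
      exact absurd (mem_range.2 (by omega)) h3
  · refine ⟨0, ?_⟩
    rw [zero_smul]
    refine Finset.sum_eq_zero fun i hi => ?_
    rw [mem_range] at hi
    rw [h2 i (by omega) (by omega), zero_smul]

include hp in
/-- the eigenvalues of `h` -/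
theorem Prin.eig_val {a : K} {x : T} (hx0 : x ≠ 0) (hx : h x = a • x) :
    ∃ m : ℕ, m ≤ D ∧ a = 2 * (m : K) - D := by
  obtain ⟨c, rfl⟩ := hp.span x
  by_contra hcon
  push Not at hcon
  apply hx0
  have h1 : ∑ i ∈ range (D + 1), ((2 * (i : K) - D - a) * c i) • w i = 0 := by
    rw [map_sum, Finset.smul_sum, ← sub_eq_zero, ← Finset.sum_sub_distrib] at hx
    rw [← hx]
    refine Finset.sum_congr rfl fun i _ => ?_
    rw [map_smul, hp.h_w]
    module
  refine Finset.sum_eq_zero fun i hi => ?_
  rw [mem_range] at hi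
  have h3 := hp.indep _ h1 i (by omega)
  have h4 := (mul_eq_zero.1 h3).resolve_left fun h4 => hcon i (by omega) (sub_eq_zero.1 h4).symm
  rw [h4, zero_smul]

include hp in
/-- `h` is semisimple -/
theorem Prin.semi {a : K} {x : T} (hx : h (h x - a • x) = a • (h x - a • x)) :
    h x = a • x := by
  by_contra hne
  have hne' : h x - a • x ≠ 0 := sub_ne_zero.2 hne
  obtain ⟨m, hm, ha⟩ := hp.eig_val hne' hx
  obtain ⟨b, hb⟩ := hp.eig (m := m) (x := h x - a • x) (by rw [hx, ha])
  obtain ⟨c, hc⟩ := hp.span x
  apply hne'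
  rw [hb]
  have h1 : ∑ i ∈ range (D + 1), ((2 * (i : K) - 2 * m) * c i - if i = m then b else 0) • w i =
      0 := by
    have h2 : ∑ i ∈ range (D + 1), (if i = m then b else 0) • w i = b • w m := by
      rw [Finset.sum_eq_single m]
      · rw [if_pos rfl]
      · intro i _ hi
        rw [if_neg hi, zero_smul]
      · intro h3
        exact absurd (mem_range.2 (by omega)) h3
    have h3 : h x - a • x = ∑ i ∈ range (D + 1), ((2 * (i : K) - 2 * m) * c i) • w i := by
      rw [hc, map_sum, Finset.smul_sum, ← Finset.sum_sub_distrib]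
      refine Finset.sum_congr rfl fun i _ => ?_
      rw [map_smul, hp.h_w, ha]
      module
    simp only [sub_smul _ _ (w _)]
    rw [Finset.sum_sub_distrib, ← h3, h2, hb, sub_self]
  have h2 := hp.indep _ h1 m hm
  rw [if_pos rfl, sub_self, zero_mul, zero_sub, neg_eq_zero] at h2
  rw [h2, zero_smul]

include hp in
/-- operators of weight `2 m` -/
theorem Prin.wt {Z : End K T} {m : ℕ} (hZ : ad K h Z = (2 * (m : K)) • Z) (i : ℕ) :
    ∃ c : K, Z (w i) = c • w (i + m) := by
  refine hp.eig ?_
  have h1 := LinearMap.congr_fun hZ (w i)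
  rw [ad_apply, LinearMap.sub_apply, Module.End.mul_apply, Module.End.mul_apply, hp.h_w, map_smul,
    LinearMap.smul_apply, sub_eq_iff_eq_add] at h1
  rw [h1]
  push_cast
  module

theorem ad_jac (x y z : End K T) : ad K x (ad K y z) = ad K (ad K x y) z + ad K y (ad K x z) := by
  simp only [ad_apply]
  noncomm_ring

include hp in
theorem Prin.ad_f_pow {X : End K T} {a : K} (hX : ad K h X = a • X) (j : ℕ) :
    ad K h ((ad K f ^ j) X) = (a - 2 * j) • (ad K f ^ j) X := by
  induction j with
  | zero =>
    rw [_root_.pow_zero, Module.End.one_apply, hX]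
    congr 1
    push_cast
    ring
  | succ j ih =>
    rw [pow_succ', Module.End.mul_apply, ad_jac, hp.hf, ad_smul', LinearMap.smul_apply, ih,
      map_smul, ← add_smul]
    congr 1
    push_cast
    ring

include hp in
theorem Prin.ad_e_pow' (k : ℕ) : ad K h (e ^ k) = (2 * (k : K)) • e ^ k := by
  rw [ad_apply, h_pow hp.he, add_sub_cancel_left]

variable {ω : T →ₗ[K] T →ₗ[K] K} (he : ∀ u v, ω (e u) v + ω u (e v) = 0)
  (hh : ∀ u v, ω (h u) v + ω u (h v) = 0)
  (hnd : ∀ u, (∀ v, ω u v = 0) → u = 0) (halt : ∀ v, ω v v = 0)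
  {L : Submodule K (End K T)} (hbr : ∀ Y ∈ L, ∀ Z ∈ L, Y * Z - Z * Y ∈ L)
  (hsk : ∀ Y ∈ L, ∀ u v, ω (Y u) v + ω u (Y v) = 0)

include hp he hh hnd hsk in
theorem Prin.odd_of_mem {k : ℕ} (hk : k ≤ D) (hkL : e ^ k ∈ L) : Odd k := by
  by_contra h1
  rw [Nat.not_odd_iff_even] at h1
  have h2 := om_pow he k (w 0) (w (D - k))
  have h3 := hsk _ hkL (w 0) (w (D - k))
  rw [h1.neg_one_pow, one_mul] at h2
  rw [h2, ← two_mul] at h3
  have h4 := (mul_eq_zero.1 h3).resolve_left two_ne_zero
  rw [hp.pow, Nat.sub_add_cancel hk] at h4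
  exact hp.pair he hh hnd h4

include hp he hh hnd halt hbr hsk in
theorem Prin.top_of_pow (hfL : f ∈ L) {k : ℕ} (h2k : 2 ≤ k) (hk : k ≤ D) (hkL : e ^ k ∈ L) :
    e ^ D ∈ L := by
  obtain ⟨r, hr⟩ : ∃ r, D - k = r := ⟨_, rfl⟩
  induction r using Nat.strong_induction_on generalizing k with
  | _ r ih =>
    rcases Nat.eq_or_lt_of_le hk with h1 | h1
    · rw [← h1]
      exact hkL
    have hodd := hp.odd_of_mem he hh hnd hsk hk hkL
    by_cases h3 : 2 * k - 1 ≤ D
    · refine ih (D - (2 * k - 1)) (by omega) (k := 2 * k - 1) (by omega) h3 ?_ rfl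
      obtain ⟨j, rfl⟩ : ∃ j, k = j + 1 := ⟨k - 1, by omega⟩
      have h4 := e_pow_f hp.ef hp.he j
      have h5 : e ^ (j + 1) * f - f * e ^ (j + 1) ∈ L := hbr _ hkL _ hfL
      have h6 := hbr _ h5 _ hkL
      have h7 : (e ^ (j + 1) * f - f * e ^ (j + 1)) * e ^ (j + 1) -
          e ^ (j + 1) * (e ^ (j + 1) * f - f * e ^ (j + 1)) =
          (2 * ((j + 1 : ℕ) : K) * ((j + 1 : ℕ) : K)) • e ^ (2 * (j + 1) - 1) := by
        rw [h4]
        have h8 := h_pow hp.he (j + 1)
        have h9 : e ^ (2 * (j + 1) - 1) = e ^ (j + 1) * e ^ j := by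
          rw [← pow_add]
          congr 1
          omega
        have h10 : e ^ j * e ^ (j + 1) = e ^ (j + 1) * e ^ j := by
          rw [← pow_add, ← pow_add, add_comm]
        rw [h9, smul_mul_assoc, mul_smul_comm, sub_mul, mul_sub, smul_mul_assoc, mul_smul_comm,
          mul_assoc h, h10, ← mul_assoc h, h8, ← mul_assoc (e ^ (j + 1)) h, add_mul,
          smul_mul_assoc]
        module
      rw [h7] at h6
      refine (Submodule.smul_mem_iff _ ?_).1 h6
      exact mul_ne_zero (mul_ne_zero two_ne_zero (Nat.cast_ne_zero.2 (Nat.succ_ne_zero j)))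
        (Nat.cast_ne_zero.2 (Nat.succ_ne_zero j))
    · -- the second case
      set j := 2 * k - D with hj
      have hyL : ∀ j, (ad K f ^ j) (e ^ k) ∈ L := by
        intro j
        induction j with
        | zero => exact hkL
        | succ j ih =>
          rw [pow_succ', Module.End.mul_apply]
          exact hbr f hfL _ ih
      set y := (ad K f ^ j) (e ^ k) with hy
      have hyw : ad K h y = (2 * ((D - k : ℕ) : K)) • y := by
        rw [hy, hp.ad_f_pow (hp.ad_e_pow' k)]
        congr 1
        rw [hj, Nat.cast_sub (by omega), Nat.cast_sub (by omega)]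
        push_cast
        ring
      obtain ⟨c1, hc1, e1⟩ := hp.f_pow (j := j) (k := k) (by omega) hk
      have e2 : y (w 0) = c1 • w (D - k) := by
        rw [hy, ad_pow_apply, LinearMap.sum_apply, Finset.sum_eq_single 0]
        · rw [LinearMap.smul_apply, Module.End.mul_apply, Module.End.mul_apply,
            _root_.pow_zero f, Module.End.one_apply, hp.pow, zero_add, Nat.sub_zero, e1,
            _root_.pow_zero, Nat.choose_zero_right, Nat.cast_one, one_mul, one_smul]
          congr 2
          omega
        · intro a _ ha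
          rw [LinearMap.smul_apply, Module.End.mul_apply, Module.End.mul_apply,
            hp.f_pow_zero (Nat.pos_of_ne_zero ha) (Nat.zero_le D), map_zero, map_zero, smul_zero]
        · intro h4
          exact absurd (mem_range.2 (by omega)) h4
      obtain ⟨c2, e3⟩ := hp.wt hyw k
      rw [show k + (D - k) = D by omega] at e3
      -- the coefficient
      have hc2 : c2 = -c1 := by
        have h4 := hsk y (hyL j) (w k) (w 0)
        rw [e3, e2, map_smul, map_smul, LinearMap.smul_apply, smul_eq_mul, smul_eq_mul] at h4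
        have h5 := om_pow he k (w 0) (w (D - k))
        rw [hp.pow, hp.pow, zero_add, hodd.neg_one_pow, Nat.sub_add_cancel hk] at h5
        have h6 := om_pow he D (w 0) (w 0)
        rw [hp.pow, zero_add] at h6
        have h7 := halt (w 0 + w D)
        simp only [map_add, LinearMap.add_apply, halt, zero_add, add_zero] at h7
        have h8 : (c2 + c1) * ω (w D) (w 0) = 0 := by
          linear_combination h4 + c1 * h7 - c1 * h5
        have h9 : ω (w D) (w 0) ≠ 0 := by
          intro h10
          rw [h10, zero_add] at h7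
          exact hp.pair he hh hnd h7
        have h11 := (mul_eq_zero.1 h8).resolve_right h9
        exact eq_neg_of_add_eq_zero_left h11
      have hz := hbr _ hkL _ (hyL j)
      have hz' : e ^ k * (ad K f ^ j) (e ^ k) - (ad K f ^ j) (e ^ k) * e ^ k =
          (2 * c1) • e ^ D := by
        rw [← hy]
        refine hp.ext fun i hi => ?_
        rw [LinearMap.sub_apply, Module.End.mul_apply, Module.End.mul_apply,
          LinearMap.smul_apply, hp.pow, hp.pow]
        obtain ⟨c3, e4⟩ := hp.wt hyw i
        obtain ⟨c4, e5⟩ := hp.wt hyw (i + k)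
        by_cases hi0 : i = 0
        · subst hi0
          rw [e2, map_smul, hp.pow, zero_add, e3, hc2, Nat.sub_add_cancel hk, zero_add]
          module
        · rw [e4, map_smul, hp.pow, e5, hp.zero (i := i + (D - k) + k) (by omega),
            hp.zero (i := i + k + (D - k)) (by omega), hp.zero (i := i + D) (by omega), smul_zero,
            smul_zero, smul_zero, sub_zero]
      rw [hz'] at hz
      exact (Submodule.smul_mem_iff _ (mul_ne_zero two_ne_zero hc1)).1 hz

end Pool.Agent.Y126.MU
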