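import Mathlib
import Pool.Agent.Y126.MU.Pow
import Pool.Agent.Y126.JB.Core2

/-!
# Lie algebras that contain a triple with a single Jordan block
-/

set_option linter.unusedSectionVars false

namespace Pool.Agent.Y126.MU

open Module Finset Pool.Agent.Y126.JB Pool.Agent.H204R3.SP

variable {K : Type*} [Field K] [CharZero K] {T : Type*} [AddCommGroup T] [Module K T]
  [FiniteDimensional K T] {e h f : End K T} {D : ℕ} {w : ℕ → T} (hp : Prin e h f D w)

include hp in
/-- the eigenvectors of `ad h` that commute with `e` -/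
theorem Prin.centr {Z : End K T} (hZ0 : Z ≠ 0) (h1 : ad K e Z = 0) {a : K}
    (h2 : ad K h Z = a • Z) : ∃ (k : ℕ) (c : K), k ≤ D ∧ a = 2 * k ∧ c ≠ 0 ∧ Z = c • e ^ k := by
  have hc : ∀ i, Z (w i) = (e ^ i) (Z (w 0)) := by
    intro i
    induction i with
    | zero => rfl
    | succ i ih =>
      have h3 := LinearMap.congr_fun h1 (w i)
      rw [ad_apply, LinearMap.sub_apply, Module.End.mul_apply, Module.End.mul_apply, hp.e_w,
        LinearMap.zero_apply, sub_eq_zero] at h3
      rw [← h3, ih, pow_succ', Module.End.mul_apply]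
  have h0 : Z (w 0) ≠ 0 := by
    intro h0
    apply hZ0
    refine hp.ext fun i _ => ?_
    rw [hc, h0, map_zero, LinearMap.zero_apply]
  have h3 : h (Z (w 0)) = (a - D) • Z (w 0) := by
    have h4 := LinearMap.congr_fun h2 (w 0)
    rw [ad_apply, LinearMap.sub_apply, Module.End.mul_apply, Module.End.mul_apply, hp.h_w,
      map_smul, LinearMap.smul_apply, sub_eq_iff_eq_add] at h4
    rw [h4]
    push_cast
    module
  obtain ⟨m, hm, ha⟩ := hp.eig_val h0 h3
  have ha' : a = 2 * m := by linear_combination ha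
  obtain ⟨c, hcm⟩ := hp.eig (m := m) (x := Z (w 0)) (by rw [h3, ha])
  refine ⟨m, c, hm, ha', ?_, ?_⟩
  · rintro rfl
    rw [zero_smul] at hcm
    exact h0 hcm
  · refine hp.ext fun i _ => ?_
    rw [hc, hcm, map_smul, hp.pow, LinearMap.smul_apply, hp.pow, add_comm]

include hp in
/-- `ad h` is semisimple -/
theorem Prin.ad_semi {Z : End K T} {a : K}
    (h1 : ad K h (ad K h Z - a • Z) = a • (ad K h Z - a • Z)) : ad K h Z = a • Z := by
  refine hp.ext fun i _ => ?_
  have e1 : ∀ Y : End K T, (ad K h Y) (w i) = h (Y (w i)) - (2 * (i : K) - D) • Y (w i) := by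
    intro Y
    rw [ad_apply, LinearMap.sub_apply, Module.End.mul_apply, Module.End.mul_apply, hp.h_w,
      map_smul]
  have h2 := LinearMap.congr_fun h1 (w i)
  rw [e1, LinearMap.smul_apply, LinearMap.sub_apply, e1, LinearMap.smul_apply] at h2
  have h3 := hp.semi (a := 2 * (i : K) - D + a) (x := Z (w i)) (by
    have h4 : h (Z (w i)) - (2 * (i : K) - D + a) • Z (w i) =
        h (Z (w i)) - (2 * (i : K) - D) • Z (w i) - a • Z (w i) := by module
    rw [h4, add_smul, ← h2]
    abel)
  rw [e1, LinearMap.smul_apply, h3]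
  module

include hp in
theorem Prin.ad_gE {a : K} {Z : End K T} (hZ : Z ∈ gE (ad K h) a) : ad K h Z = a • Z := by
  refine gE_ind (p := fun Z : End K T => ad K h Z = a • Z) ?_ ?_ hZ
  · rw [map_zero, smul_zero]
  · intro Z _ hZ'
    exact hp.ad_semi hZ'

include hp in
theorem Prin.lin (hD : 0 < D) {α β γ : K} (h1 : α • e + β • h + γ • f = 0) :
    α = 0 ∧ β = 0 ∧ γ = 0 := by
  have hD' : (D : K) ≠ 0 := Nat.cast_ne_zero.2 hD.ne'
  have h2 := LinearMap.congr_fun h1 (w 0)
  rw [LinearMap.add_apply, LinearMap.add_apply, LinearMap.smul_apply, LinearMap.smul_apply,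
    LinearMap.smul_apply, hp.f_zero, hp.e_w, hp.h_w, smul_zero, add_zero, zero_add,
    LinearMap.zero_apply, smul_smul] at h2
  have h3 := hp.indep (fun i => if i = 1 then α else if i = 0 then β * (2 * ((0 : ℕ) : K) - D)
    else 0) (by
      rw [← h2, Finset.sum_eq_add_of_mem 1 0 (mem_range.2 (by omega)) (mem_range.2 (by omega))
        one_ne_zero]
      · rw [if_pos rfl, if_neg zero_ne_one, if_pos rfl]
      · intro c _ hc
        rw [if_neg hc.1, if_neg hc.2, zero_smul])
  have h4 := h3 1 hD
  have h5 := h3 0 (Nat.zero_le D)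
  rw [if_pos rfl] at h4
  rw [if_neg zero_ne_one, if_pos rfl] at h5
  have h6 : β = 0 := by
    refine (mul_eq_zero.1 h5).resolve_right ?_
    push_cast
    rw [mul_zero, zero_sub]
    exact neg_ne_zero.2 hD'
  refine ⟨h4, h6, ?_⟩
  rw [h4, h6, zero_smul, zero_smul, zero_add, zero_add] at h1
  have h7 := LinearMap.congr_fun h1 (w (0 + 1))
  rw [LinearMap.smul_apply, hp.f_w, smul_smul, LinearMap.zero_apply] at h7
  have h8 := (smul_eq_zero.1 h7).resolve_right (hp.ne_zero (Nat.zero_le D))
  refine (mul_eq_zero.1 h8).resolve_right ?_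
  push_cast
  rw [zero_add, one_mul, sub_zero]
  exact hD'

variable {ω : T →ₗ[K] T →ₗ[K] K} (he : ∀ u v, ω (e u) v + ω u (e v) = 0)
  (hh : ∀ u v, ω (h u) v + ω u (h v) = 0)
  (hnd : ∀ u, (∀ v, ω u v = 0) → u = 0)
  {L : Submodule K (End K T)} (hbr : ∀ Y ∈ L, ∀ Z ∈ L, Y * Z - Z * Y ∈ L)
  (hsk : ∀ Y ∈ L, ∀ u v, ω (Y u) v + ω u (Y v) = 0)

theorem mem_tri {x y z X : End K T} (hX : X ∈ Submodule.span K {x, y, z}) :
    ∃ α β γ : K, X = α • x + β • y + γ • z := by
  rw [Submodule.mem_span_insert] at hX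
  obtain ⟨α, X', hX', rfl⟩ := hX
  rw [Submodule.mem_span_insert] at hX'
  obtain ⟨β, X'', hX'', rfl⟩ := hX'
  rw [Submodule.mem_span_singleton] at hX''
  obtain ⟨γ, rfl⟩ := hX''
  exact ⟨α, β, γ, by rw [add_assoc]⟩

theorem tri_mem {x y z : End K T} (α β γ : K) :
    α • x + β • y + γ • z ∈ Submodule.span K ({x, y, z} : Set (End K T)) := by
  refine Submodule.add_mem _ (Submodule.add_mem _ (Submodule.smul_mem _ _ ?_)
    (Submodule.smul_mem _ _ ?_)) (Submodule.smul_mem _ _ ?_)
  · exact Submodule.subset_span (by simp)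
  · exact Submodule.subset_span (by simp)
  · exact Submodule.subset_span (by simp)

theorem le_of_gE [IsAlgClosed K] {V : Type*} [AddCommGroup V] [Module K V]
    [FiniteDimensional K V] {g : End K V} {P Q : Submodule K V} (h1 : ∀ x ∈ P, g x ∈ P)
    (h2 : ∀ μ, ∀ x ∈ P, x ∈ gE g μ → x ∈ Q) : P ≤ Q := by
  have h3 := Submodule.inf_iSup_genEigenspace (f := g) h1 ⊤
  have h4 : ⨆ μ, Module.End.genEigenspace g μ ⊤ = ⊤ :=
    Module.End.iSup_maxGenEigenspace_eq_top g
  rw [h4, inf_top_eq] at h3
  rw [h3]
  refine iSup_le fun μ => ?_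
  rintro x ⟨hx, hx'⟩
  exact h2 μ x hx hx'

include hp he hh hnd hbr hsk in
/-- **The dichotomy.** -/
theorem Prin.exists_pow [IsAlgClosed K] (hD : 0 < D) (heL : e ∈ L) (hhL : h ∈ L)
    (hne : ¬ L ≤ Submodule.span K {e, h, f}) : ∃ k, 2 ≤ k ∧ k ≤ D ∧ e ^ k ∈ L := by
  set S := Submodule.span K ({e, h, f} : Set (End K T)) with hS
  have hpow : ∀ (n : ℕ) (Y : End K T), Y ∈ L → (ad K e ^ n) Y ∈ L := by
    intro n Y hY
    induction n with
    | zero => exact hY
    | succ n ih =>
      rw [pow_succ', Module.End.mul_apply]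
      exact hbr e heL _ ih
  -- a weight vector
  obtain ⟨a, x, hxL, hxa, hxS⟩ : ∃ (a : K) (x : End K T), x ∈ L ∧ ad K h x = a • x ∧ x ∉ S := by
    by_contra hcon
    push Not at hcon
    apply hne
    have h1 : ∀ x ∈ L, ad K h x ∈ L := fun x hx => hbr h hhL x hx
    exact le_of_gE h1 fun μ x hx hx' => hcon μ x hx (hp.ad_gE hx')
  -- apply `ad e`
  obtain ⟨b, y, hyL, hyb, hyS, hyeS⟩ : ∃ (b : K) (y : End K T), y ∈ L ∧ ad K h y = b • y ∧
      y ∉ S ∧ ad K e y ∈ S := by
    have h1 : ∃ n, (ad K e ^ n) x ∈ S := by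
      obtain ⟨n, hn⟩ := ad_nilpotent (K := K) hp.nil
      exact ⟨n, by rw [hn, LinearMap.zero_apply]; exact S.zero_mem⟩
    classical
    have h2 := Nat.find_spec h1
    have h3 : Nat.find h1 ≠ 0 := by
      intro h3
      rw [h3, _root_.pow_zero, Module.End.one_apply] at h2
      exact hxS h2
    obtain ⟨n, hn⟩ := Nat.exists_eq_succ_of_ne_zero h3
    have h4 := Nat.find_min h1 (m := n) (by omega)
    rw [hn, Nat.succ_eq_add_one, pow_succ', Module.End.mul_apply] at h2
    refine ⟨a + 2 * n, (ad K e ^ n) x, hpow n x hxL, ?_, h4, h2⟩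
    have h5 : ad K (ad K h) (ad K e) = (2 : K) • ad K e := by
      rw [ad_ad, hp.he, ad_smul']
    exact h_pow_apply h5 hxa n
  obtain ⟨α, β, γ, hs⟩ := mem_tri hyeS
  -- the weights
  have hw : ad K h (ad K e y) = (b + 2) • ad K e y := by
    rw [ad_jac, hp.he, ad_smul', LinearMap.smul_apply, hyb, map_smul, ← add_smul, add_comm]
  have hadh : ad K h h = 0 := by rw [ad_apply, sub_self]
  have h1 := hp.lin hD (α := (2 - (b + 2)) * α) (β := (0 - (b + 2)) * β)
    (γ := (-2 - (b + 2)) * γ) (by
      rw [hs, map_add, map_add, map_smul, map_smul, map_smul, hp.he, hp.hf, hadh] at hw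
      rw [← sub_eq_zero] at hw
      rw [← hw]
      module)
  have heh : ad K e h = (-2 : K) • e := by
    have := hp.he
    rw [ad_apply] at this ⊢
    rw [neg_smul, ← this]
    abel
  have hid : ∀ c : K, c ≠ 0 → c • (1 : End K T) ∉ L := by
    intro c hc hcL
    have h2 := hsk _ hcL (w 0) (w D)
    rw [LinearMap.smul_apply, LinearMap.smul_apply, Module.End.one_apply, Module.End.one_apply,
      map_smul, map_smul, LinearMap.smul_apply, smul_eq_mul, ← two_mul] at h2
    rcases mul_eq_zero.1 h2 with h3 | h3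
    · exact two_ne_zero h3
    · rcases mul_eq_zero.1 h3 with h4 | h4
      · exact hc h4
      · exact hp.pair he hh hnd h4
  have hne0 : ∀ y' : End K T, y' ∉ S → y' ≠ 0 := by
    rintro y' hy' rfl
    exact hy' S.zero_mem
  by_cases hγ : γ = 0
  · by_cases hβ : β = 0
    · by_cases hα : α = 0
      · -- in the kernel
        rw [hα, hβ, hγ, zero_smul, zero_smul, zero_smul, add_zero, add_zero] at hs
        obtain ⟨k, c, hk, -, hc, rfl⟩ := hp.centr (hne0 y hyS) hs hyb
        refine ⟨k, ?_, hk, (Submodule.smul_mem_iff _ hc).1 hyL⟩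
        by_contra hk2
        have h2 : k = 0 ∨ k = 1 := by omega
        rcases h2 with rfl | rfl
        · rw [_root_.pow_zero] at hyL
          exact hid c hc hyL
        · apply hyS
          rw [pow_one]
          exact S.smul_mem _ (Submodule.subset_span (by simp))
      · -- weight zero
        exfalso
        have hb : b = 0 := by
          have h2 := (mul_eq_zero.1 h1.1).resolve_right hα
          linear_combination -h2
        subst hb
        rw [hβ, hγ, zero_smul, zero_smul, add_zero, add_zero] at hs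
        have hy' : y + (α / 2) • h ∉ S := by
          intro h2
          apply hyS
          have h3 := S.sub_mem h2 (S.smul_mem (α / 2) (Submodule.subset_span (by simp) : h ∈ S))
          rwa [add_sub_cancel_right] at h3
        obtain ⟨k, c, hk, hk0, hc, h2⟩ := hp.centr (hne0 _ hy') (a := 0) (by
          rw [map_add, map_smul, hs, heh]
          module) (by
          rw [map_add, map_smul, hyb, hadh]
          module)
        have hk1 : k = 0 := by
          have h3 : (k : K) = 0 := (mul_eq_zero.1 hk0.symm).resolve_left two_ne_zero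
          exact_mod_cast h3
        rw [hk1, _root_.pow_zero] at h2
        apply hid c hc
        rw [← h2]
        exact L.add_mem hyL (L.smul_mem _ hhL)
    · exfalso
      have hb : b = -2 := by
        have h2 := (mul_eq_zero.1 h1.2.1).resolve_right hβ
        linear_combination -h2
      subst hb
      have hα : α = 0 := by
        refine (mul_eq_zero.1 h1.1).resolve_left ?_
        norm_num
      rw [hα, hγ, zero_smul, zero_smul, add_zero, zero_add] at hs
      have hy' : y - β • f ∉ S := by
        intro h2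
        apply hyS
        have h3 := S.add_mem h2 (S.smul_mem β (Submodule.subset_span (by simp) : f ∈ S))
        rwa [sub_add_cancel] at h3
      obtain ⟨k, c, hk, hk0, hc, h2⟩ := hp.centr (hne0 _ hy') (a := -2) (by
        rw [map_sub, map_smul, hs, ← hp.ef, sub_self]) (by
        rw [map_sub, map_smul, hyb, hp.hf]
        module)
      have h3 : ((k + 1 : ℕ) : K) = 0 := by
        push_cast
        have h4 : (2 : K) * (k + 1) = 0 := by linear_combination -hk0
        exact (mul_eq_zero.1 h4).resolve_left two_ne_zero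
      exact Nat.cast_ne_zero.2 (Nat.succ_ne_zero k) h3
  · exfalso
    have hb : b = -4 := by
      have h2 := (mul_eq_zero.1 h1.2.2).resolve_right hγ
      linear_combination -h2
    subst hb
    have hα : α = 0 := by
      refine (mul_eq_zero.1 h1.1).resolve_left ?_
      norm_num
    have hβ : β = 0 := by
      refine (mul_eq_zero.1 h1.2.1).resolve_left ?_
      norm_num
    rw [hα, hβ, zero_smul, zero_smul, zero_add, zero_add] at hs
    have h2 : (ad K e ^ 3) y = (-2 * γ) • e := by
      rw [show (3 : ℕ) = 2 + 1 from rfl, pow_succ, Module.End.mul_apply, hs, pow_two,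
        Module.End.mul_apply, map_smul, ← hp.ef, map_smul, heh, smul_smul]
      congr 1
      ring
    have h3 : (ad K e ^ 3) y ∈ Kj (ad K e) 3 := by
      refine mem_Kj.2 ⟨?_, y, rfl⟩
      rw [h2, map_smul, ad_apply e e, sub_self, smul_zero]
    have h4 := no_small (e := ad K e) (f := ad K f) (h := ad K h)
      (by rw [ad_ad, ← hp.ef]) (by rw [ad_ad, hp.he, ad_smul'])
      (ad_nilpotent hp.nil) h3 (i := 2) (by norm_num) (by
        rw [h2, map_smul, hp.he]
        push_cast
        module)
    rw [h2] at h4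
    rcases smul_eq_zero.1 h4 with h5 | h5
    · rcases mul_eq_zero.1 h5 with h6 | h6
      · norm_num at h6
      · exact hγ h6
    · have h6 := hp.e_w 0
      rw [h5, LinearMap.zero_apply] at h6
      exact hp.ne_zero (i := 0 + 1) (by omega) h6.symm

end Pool.Agent.Y126.MU
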