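import Mathlib
import Pool.Agent.Y126.MU.Dich

/-!
# Elements that normalise the principal three dimensional algebra
-/

set_option linter.unusedSectionVars false

namespace Pool.Agent.Y126.MU

open Module Finset Pool.Agent.Y126.JB Pool.Agent.H204R3.SP

variable {K : Type*} [Field K] [CharZero K] {T : Type*} [AddCommGroup T] [Module K T]
  [FiniteDimensional K T]

theorem nil_of_ad {x y : End K T} (h1 : ad K y x = (2 : K) • x) : IsNilpotent x := by
  by_contra hcon
  have h2 : ∀ k, x ^ k ≠ 0 := fun k hk => hcon ⟨k, hk⟩
  have h3 : ∀ k : ℕ, Module.End.HasEigenvalue (ad K y) ((2 * k : K)) := by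
    intro k
    refine Module.End.hasEigenvalue_of_hasEigenvector (x := x ^ k) ⟨?_, h2 k⟩
    rw [Module.End.mem_eigenspace_iff, ad_apply, h_pow h1, add_sub_cancel_left]
  have h4 : (Set.range fun k : ℕ => (2 * k : K)).Finite :=
    (Module.End.finite_hasEigenvalue (f := ad K y)).subset (by
      rintro _ ⟨k, rfl⟩
      exact h3 k)
  refine Set.infinite_range_of_injective ?_ h4
  intro i j hij
  have h5 : (2 : K) * (i - j) = 0 := by
    have h6 : (2 * i : K) = 2 * j := hij
    linear_combination h6
  exact Nat.cast_injective (sub_eq_zero.1 ((mul_eq_zero.1 h5).resolve_left two_ne_zero))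

variable {e h f : End K T} {D : ℕ} {w : ℕ → T} (hp : Prin e h f D w)

include hp in
/-- The quadratic form. -/
theorem Prin.quad (hD : 0 < D) {a b c a' b' c' : K}
    (h1 : ad K (a' • e + b' • h + c' • f) (a • e + b • h + c • f) =
      (2 : K) • (a • e + b • h + c • f)) : b * b + a * c = 0 := by
  have e1 : ad K h e = (2 : K) • e := hp.he
  have e2 : ad K h f = (-2 : K) • f := hp.hf
  have e3 : ad K e f = h := hp.ef.symm
  have h2 : h * e = e * h + (2 : K) • e := by rw [← e1, ad_apply]; abel
  have h3 : h * f = f * h + (-2 : K) • f := by rw [← e2, ad_apply]; abel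
  have h4 : e * f = f * e + h := by rw [← e3, ad_apply]; abel
  have h5 : (2 * (b' * a - a' * b) - 2 * a) • e + (a' * c - c' * a - 2 * b) • h +
      (2 * (c' * b - b' * c) - 2 * c) • f = 0 := by
    rw [← sub_eq_zero] at h1
    rw [← h1, ad_apply]
    simp only [add_mul, mul_add, smul_mul_assoc, mul_smul_comm, h2, h3, h4]
    module
  obtain ⟨r1, r2, r3⟩ := hp.lin hD h5
  have h6 : (2 : K) * (b * b + a * c) = 0 := by
    linear_combination (-b) * r2 + (-(c / 2)) * r1 + (-(a / 2)) * r3
  exact (mul_eq_zero.1 h6).resolve_left two_ne_zero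

include hp in
theorem Prin.ns (s : K) : ad K ((0 : K) • e + (1 : K) • h + (2 * s) • f)
    ((1 : K) • e + (-s) • h + (-(s * s)) • f) =
      (2 : K) • ((1 : K) • e + (-s) • h + (-(s * s)) • f) := by
  have e1 : ad K h e = (2 : K) • e := hp.he
  have e2 : ad K h f = (-2 : K) • f := hp.hf
  have e3 : ad K e f = h := hp.ef.symm
  have h2 : h * e = e * h + (2 : K) • e := by rw [← e1, ad_apply]; abel
  have h3 : h * f = f * h + (-2 : K) • f := by rw [← e2, ad_apply]; abel
  have h4 : e * f = f * e + h := by rw [← e3, ad_apply]; abel
  rw [ad_apply]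
  simp only [add_mul, mul_add, smul_mul_assoc, mul_smul_comm, h2, h3, h4]
  module

theorem conj_ad {g g' x y : End K T} (h2 : g' * g = 1) :
    ad K (g * x * g') (g * y * g') = g * ad K x y * g' := by
  rw [ad_apply, ad_apply, mul_sub, sub_mul]
  have h3 : ∀ a b : End K T, g * a * g' * (g * b * g') = g * (a * b) * g' := by
    intro a b
    calc g * a * g' * (g * b * g') = g * a * (g' * g) * b * g' := by noncomm_ring
      _ = g * (a * b) * g' := by rw [h2]; noncomm_ring
  rw [h3, h3]

include hp in
/-- A nilpotent eigenvector. -/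
theorem Prin.exists_nilp [IsAlgClosed K] (hD : 0 < D) {g g' : End K T}
    (h2 : g' * g = 1) (hS : ∀ X ∈ Submodule.span K {e, h, f},
      g * X * g' ∈ Submodule.span K {e, h, f}) :
    ∃ (x y : End K T) (c : K) (v : T), g * x = c • (x * g) ∧ ad K y x = (2 : K) • x ∧
      (x ^ D) v ≠ 0 := by
  obtain ⟨a1, b1, c1, r1⟩ := mem_tri (hS e (Submodule.subset_span (by simp)))
  obtain ⟨a2, b2, c2, r2⟩ := mem_tri (hS h (Submodule.subset_span (by simp)))
  obtain ⟨a3, b3, c3, r3⟩ := mem_tri (hS f (Submodule.subset_span (by simp)))
  have key : ∀ (x : End K T) (c : K), g * x * g' = c • x → g * x = c • (x * g) := by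
    intro x c hx
    rw [← smul_mul_assoc, ← hx, mul_assoc, h2, mul_one]
  have hf2 : ad K (-h) f = (2 : K) • f := by
    have := hp.hf
    rw [ad_apply] at this ⊢
    rw [neg_mul, mul_neg, sub_neg_eq_add, neg_add_eq_sub, ← neg_sub, this]
    module
  by_cases ha3 : a3 = 0
  · -- `f` itself
    have h3 := conj_ad (x := -h) (y := f) h2
    rw [hf2, mul_smul_comm, smul_mul_assoc, mul_neg, neg_mul, r2, r3] at h3
    have h4 := hp.quad hD (a := a3) (b := b3) (c := c3) (a' := -a2) (b' := -b2) (c' := -c2) (by
      rw [← h3]
      congr 2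
      module)
    rw [ha3, zero_mul, add_zero] at h4
    have hb3 : b3 = 0 := mul_self_eq_zero.1 h4
    rw [ha3, hb3, zero_smul, zero_smul, zero_add, zero_add] at r3
    refine ⟨f, -h, c3, w D, key _ _ r3, hf2, ?_⟩
    obtain ⟨c, hc, h5⟩ := hp.f_pow (le_refl D) (le_refl D)
    rw [h5]
    exact smul_ne_zero hc (hp.ne_zero (by omega))
  · -- a root of a polynomial of degree four
    obtain ⟨s, hs⟩ : ∃ s : K, (c1 - c2 * s - c3 * (s * s)) - 2 * s * (b1 - b2 * s - b3 * (s * s)) -
        s * s * (a1 - a2 * s - a3 * (s * s)) = 0 := by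
      obtain ⟨p, hpp⟩ : ∃ p : Polynomial K, p = Polynomial.C a3 * Polynomial.X ^ 4 +
        Polynomial.C (2 * b3 + a2) * Polynomial.X ^ 3 +
        Polynomial.C (2 * b2 - c3 - a1) * Polynomial.X ^ 2 +
        Polynomial.C (-c2 - 2 * b1) * Polynomial.X + Polynomial.C c1 := ⟨_, rfl⟩
      have hdeg : p.natDegree = 4 := by
        rw [hpp]
        compute_degree!
      obtain ⟨s, hs⟩ := IsAlgClosed.exists_root p (by
        intro h0
        have h4 : p.natDegree = 0 := Polynomial.natDegree_eq_of_degree_eq_some h0
        omega)
      refine ⟨s, ?_⟩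
      have h5 : p.eval s = 0 := hs
      simp only [hpp, Polynomial.eval_add, Polynomial.eval_mul, Polynomial.eval_C,
        Polynomial.eval_pow, Polynomial.eval_X] at h5
      linear_combination h5
    have h3 := conj_ad (x := (0 : K) • e + (1 : K) • h + (2 * s) • f)
      (y := (1 : K) • e + (-s) • h + (-(s * s)) • f) h2
    set a := a1 - a2 * s - a3 * (s * s) with ha
    set b := b1 - b2 * s - b3 * (s * s) with hb
    set c := c1 - c2 * s - c3 * (s * s) with hc
    have hn : g * ((1 : K) • e + (-s) • h + (-(s * s)) • f) * g' = a • e + b • h + c • f := by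
      rw [mul_add, mul_add, add_mul, add_mul, mul_smul_comm, mul_smul_comm, mul_smul_comm,
        smul_mul_assoc, smul_mul_assoc, smul_mul_assoc, r1, r2, r3, ha, hb, hc]
      module
    have hm : g * ((0 : K) • e + (1 : K) • h + (2 * s) • f) * g' =
        (a2 + 2 * s * a3) • e + (b2 + 2 * s * b3) • h + (c2 + 2 * s * c3) • f := by
      rw [mul_add, mul_add, add_mul, add_mul, mul_smul_comm, mul_smul_comm, mul_smul_comm,
        smul_mul_assoc, smul_mul_assoc, smul_mul_assoc, r1, r2, r3]
      module
    rw [hp.ns s, mul_smul_comm, smul_mul_assoc, hn, hm] at h3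
    have h4 := hp.quad hD h3
    have h5 : (b + a * s) * (b + a * s) = 0 := by linear_combination h4 - a * hs
    have h6 : b = -(a * s) := eq_neg_of_add_eq_zero_left (mul_self_eq_zero.1 h5)
    have h7 : c = -(a * (s * s)) := by
      have h8 : c - 2 * s * b - s * s * a = 0 := hs
      rw [h6] at h8
      linear_combination h8
    refine ⟨(1 : K) • e + (-s) • h + (-(s * s)) • f, (0 : K) • e + (1 : K) • h + (2 * s) • f, a,
      w 0, key _ _ ?_, hp.ns s, ?_⟩
    · rw [hn, h6, h7]
      module
    · -- the power does not vanish
      set x := (1 : K) • e + (-s) • h + (-(s * s)) • f with hx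
      have hFx : ∀ i, ∀ t ∈ Submodule.span K (w '' {j | j < i}),
          x t ∈ Submodule.span K (w '' {j | j < i + 1}) := by
        intro i t ht
        induction ht using Submodule.span_induction with
        | mem t ht =>
          obtain ⟨j, hj, rfl⟩ := ht
          rw [hx, LinearMap.add_apply, LinearMap.add_apply, LinearMap.smul_apply,
            LinearMap.smul_apply, LinearMap.smul_apply, hp.e_w, hp.h_w]
          have hj' : j < i := hj
          refine Submodule.add_mem _ (Submodule.add_mem _ (Submodule.smul_mem _ _ ?_)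
            (Submodule.smul_mem _ _ (Submodule.smul_mem _ _ ?_))) (Submodule.smul_mem _ _ ?_)
          · exact Submodule.subset_span ⟨j + 1, Nat.succ_lt_succ hj', rfl⟩
          · exact Submodule.subset_span ⟨j, Nat.lt_succ_of_lt hj', rfl⟩
          · cases j with
            | zero => rw [hp.f_zero]; exact Submodule.zero_mem _
            | succ j =>
              rw [hp.f_w]
              exact Submodule.smul_mem _ _ (Submodule.subset_span
                ⟨j, show j < i + 1 by omega, rfl⟩)
        | zero => rw [map_zero]; exact Submodule.zero_mem _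
        | add t t' _ _ h8 h9 => rw [map_add]; exact Submodule.add_mem _ h8 h9
        | smul q t _ h8 => rw [map_smul]; exact Submodule.smul_mem _ _ h8
      have hxw : ∀ i, x (w i) - w (i + 1) ∈ Submodule.span K (w '' {j | j < i + 1}) := by
        intro i
        rw [hx, LinearMap.add_apply, LinearMap.add_apply, LinearMap.smul_apply,
          LinearMap.smul_apply, LinearMap.smul_apply, hp.e_w, hp.h_w, one_smul,
          show w (i + 1) + (-s) • (2 * (i : K) - D) • w i + (-(s * s)) • f (w i) - w (i + 1) =
            (-s) • (2 * (i : K) - D) • w i + (-(s * s)) • f (w i) by abel]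
        refine Submodule.add_mem _ (Submodule.smul_mem _ _ (Submodule.smul_mem _ _ ?_))
          (Submodule.smul_mem _ _ ?_)
        · exact Submodule.subset_span ⟨i, Nat.lt_succ_self i, rfl⟩
        · cases i with
          | zero => rw [hp.f_zero]; exact Submodule.zero_mem _
          | succ i =>
            rw [hp.f_w]
            exact Submodule.smul_mem _ _ (Submodule.subset_span
              ⟨i, show i < i + 1 + 1 by omega, rfl⟩)
      have hpw : ∀ i, (x ^ i) (w 0) - w i ∈ Submodule.span K (w '' {j | j < i}) := by
        intro i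
        induction i with
        | zero =>
          rw [_root_.pow_zero, Module.End.one_apply, sub_self]
          exact Submodule.zero_mem _
        | succ i ih =>
          have h8 := Submodule.add_mem _ (hFx i _ ih) (hxw i)
          rw [map_sub, sub_add_sub_cancel] at h8
          rw [pow_succ', Module.End.mul_apply]
          exact h8
      intro h0
      have h8 := hpw D
      rw [h0, zero_sub] at h8
      have h9 := Submodule.neg_mem _ h8
      rw [neg_neg] at h9
      have h10 : ∀ t ∈ Submodule.span K (w '' {j | j < D}), ∃ c : ℕ → K,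
          t = ∑ i ∈ range D, c i • w i := by
        intro t ht
        induction ht using Submodule.span_induction with
        | mem t ht =>
          obtain ⟨j, hj, rfl⟩ := ht
          have hj' : j < D := hj
          refine ⟨fun i => if i = j then 1 else 0, ?_⟩
          rw [Finset.sum_eq_single j]
          · change w j = (if j = j then (1 : K) else 0) • w j
            rw [if_pos rfl, one_smul]
          · intro i _ hi
            change (if i = j then (1 : K) else 0) • w i = 0
            rw [if_neg hi, zero_smul]
          · intro h11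
            exact absurd (mem_range.2 hj') h11
        | zero => exact ⟨fun _ => 0, by simp⟩
        | add t t' _ _ h8 h9 =>
          obtain ⟨c, rfl⟩ := h8
          obtain ⟨c', rfl⟩ := h9
          refine ⟨fun i => c i + c' i, ?_⟩
          rw [← Finset.sum_add_distrib]
          exact Finset.sum_congr rfl fun i _ => (add_smul _ _ _).symm
        | smul q t _ h8 =>
          obtain ⟨c, rfl⟩ := h8
          refine ⟨fun i => q * c i, ?_⟩
          rw [Finset.smul_sum]
          exact Finset.sum_congr rfl fun i _ => smul_smul _ _ _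
      obtain ⟨d, hd⟩ := h10 _ h9
      have h11 := hp.indep (fun i => if i < D then d i else -1) (by
        rw [Finset.sum_range_succ, if_neg (lt_irrefl D), neg_smul, one_smul, hd, ← sub_eq_add_neg,
          sub_eq_zero]
        refine Finset.sum_congr rfl fun i hi => ?_
        rw [if_pos (mem_range.1 hi)]) D (le_refl D)
      rw [if_neg (lt_irrefl D)] at h11
      norm_num at h11

end Pool.Agent.Y126.MU
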