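import Mathlib
import Pool.Agent.Y126.MU.Geom

/-!
# The characteristic polynomial of an element that normalises the principal algebra
-/

set_option linter.unusedSectionVars false

namespace Pool.Agent.Y126.MU

open Module Finset Pool.Agent.Y126.JB Pool.Agent.H204R3.SP

variable {K : Type*} [Field K] {T : Type*} [AddCommGroup T] [Module K T]
  [FiniteDimensional K T]

theorem pow_top {N : End K T} (hN : IsNilpotent N) {D : ℕ} (hdim : finrank K T = D + 1) :
    N ^ (D + 1) = 0 := by
  have h1 := LinearMap.aeval_self_charpoly N
  rw [hN.charpoly_eq_X_pow_finrank, map_pow, Polynomial.aeval_X, hdim] at h1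
  exact h1

/-- the cyclic basis -/
theorem exists_cyc {N : End K T} (hN : IsNilpotent N) {D : ℕ} (hdim : finrank K T = D + 1) {v : T}
    (hv : (N ^ D) v ≠ 0) : ∃ b : Basis (Fin (D + 1)) K T, ∀ i, b i = (N ^ (i : ℕ)) v := by
  have h0 := pow_top hN hdim
  have h1 : LinearIndependent K fun i : Fin (D + 1) => (N ^ (i : ℕ)) v := by
    rw [Fintype.linearIndependent_iff]
    intro c hc
    have key : ∀ n, ∀ i : Fin (D + 1), (i : ℕ) = n → c i = 0 := by
      intro n
      induction n using Nat.strong_induction_on with
      | _ n ih =>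
        intro i hi
        have h2 := congrArg (N ^ (D - n)) hc
        rw [map_sum, map_zero, Finset.sum_eq_single i] at h2
        · rw [map_smul, ← Module.End.mul_apply, ← pow_add, hi,
            Nat.sub_add_cancel (by omega)] at h2
          exact (smul_eq_zero.1 h2).resolve_right hv
        · intro j _ hj
          rw [map_smul]
          rcases lt_trichotomy (j : ℕ) n with h3 | h3 | h3
          · rw [ih _ h3 j rfl, zero_smul]
          · exact absurd (Fin.ext (h3.trans hi.symm)) hj
          · rw [← Module.End.mul_apply, ← pow_add]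
            obtain ⟨r, hr⟩ : ∃ r, D - n + (j : ℕ) = (D + 1) + r :=
              ⟨D - n + (j : ℕ) - (D + 1), by omega⟩
            rw [hr, pow_add, h0, zero_mul, LinearMap.zero_apply, smul_zero]
        · intro h3
          exact absurd (mem_univ _) h3
    exact fun i => key _ i rfl
  refine ⟨basisOfLinearIndependentOfCardEqFinrank h1 (by rw [Fintype.card_fin, hdim]), fun i => ?_⟩
  rw [coe_basisOfLinearIndependentOfCardEqFinrank]

/-- **The characteristic polynomial.** -/
theorem charpoly_geom [CharZero K] {g x y : End K T} {c : K} (h1 : g * x = c • (x * g))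
    (h2 : ad K y x = (2 : K) • x) {D : ℕ} (hdim : finrank K T = D + 1) {v : T}
    (hv : (x ^ D) v ≠ 0) :
    ∃ a : K, g.charpoly = ∏ i ∈ range (D + 1), (Polynomial.X - Polynomial.C (a * c ^ i)) := by
  have hx := nil_of_ad h2
  have h0 := pow_top hx hdim
  obtain ⟨b, hb⟩ := exists_cyc hx hdim hv
  have hxi : ∀ (i : ℕ), g * x ^ i = c ^ i • (x ^ i * g) := by
    intro i
    induction i with
    | zero => simp
    | succ i ih =>
      rw [pow_succ x i, ← mul_assoc, ih, smul_mul_assoc, mul_assoc, h1, mul_smul_comm, smul_smul,
        ← mul_assoc, pow_succ]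
  -- the coordinates
  have hco : ∀ (i k : Fin (D + 1)) (u : T), (k : ℕ) ≤ i →
      b.repr ((x ^ (i : ℕ)) u) k = if k = i then b.repr u 0 else 0 := by
    intro i k u hki
    have h3 : (b.coord k) ∘ₗ (x ^ (i : ℕ)) = if k = i then b.coord 0 else 0 := by
      refine b.ext fun j => ?_
      rw [LinearMap.comp_apply, hb j, ← Module.End.mul_apply, ← pow_add, Basis.coord_apply]
      by_cases hij : (i : ℕ) + j < D + 1
      · have h4 : (x ^ ((i : ℕ) + (j : ℕ))) v = b ⟨(i : ℕ) + (j : ℕ), hij⟩ :=
          (hb ⟨(i : ℕ) + (j : ℕ), hij⟩).symm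
        rw [h4, b.repr_self, Finsupp.single_apply]
        by_cases hk : k = i
        · rw [if_pos hk, ← hb j, Basis.coord_apply, b.repr_self, Finsupp.single_apply]
          congr 1
          apply propext
          rw [hk, Fin.ext_iff, Fin.ext_iff]
          simp
        · rw [if_neg hk, LinearMap.zero_apply, if_neg]
          intro h5
          rw [Fin.ext_iff] at h5
          apply hk
          apply Fin.ext
          have h6 : (i : ℕ) + j = k := h5
          omega
      · obtain ⟨r, hr⟩ := Nat.exists_eq_add_of_le (not_lt.1 hij)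
        rw [hr, pow_add, h0, zero_mul, LinearMap.zero_apply, map_zero, Finsupp.zero_apply]
        by_cases hk : k = i
        · rw [if_pos hk, ← hb j, Basis.coord_apply, b.repr_self, Finsupp.single_apply, if_neg]
          intro h5
          rw [Fin.ext_iff] at h5
          have h6 : (j : ℕ) = 0 := h5
          omega
        · rw [if_neg hk, LinearMap.zero_apply]
    have h4 := LinearMap.congr_fun h3 u
    rw [LinearMap.comp_apply, Basis.coord_apply] at h4
    rw [h4]
    by_cases hk : k = i
    · rw [if_pos hk, if_pos hk, Basis.coord_apply]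
    · rw [if_neg hk, if_neg hk, LinearMap.zero_apply]
  have hM : ∀ i k : Fin (D + 1), (k : ℕ) ≤ i → (LinearMap.toMatrix b b g).transpose i k =
      if k = i then b.repr (g v) 0 * c ^ (i : ℕ) else 0 := by
    intro i k hki
    rw [Matrix.transpose_apply, LinearMap.toMatrix_apply, hb i]
    have h3 := LinearMap.congr_fun (hxi i) v
    rw [Module.End.mul_apply, LinearMap.smul_apply, Module.End.mul_apply] at h3
    rw [h3, map_smul, Finsupp.smul_apply, hco i k _ hki, smul_eq_mul]
    by_cases hk : k = i
    · rw [if_pos hk, if_pos hk, mul_comm]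
    · rw [if_neg hk, if_neg hk, mul_zero]
  refine ⟨b.repr (g v) 0, ?_⟩
  rw [← LinearMap.charpoly_toMatrix g b, ← Matrix.charpoly_transpose,
    Matrix.charpoly_of_isUpperTriangular, Finset.prod_range]
  · refine Finset.prod_congr rfl fun i _ => ?_
    rw [hM i i (le_refl _), if_pos rfl]
  · intro i k hki
    have hki' : k < i := hki
    rw [hM i k hki'.le, if_neg hki'.ne]

end Pool.Agent.Y126.MU
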