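import Mathlib
import Pool.Agent.Y126.MU.Geom
import Pool.Agent.TH118.SG.Pair

/-!
# Multilinear maps killed by a triple
-/

set_option linter.unusedSectionVars false

namespace Pool.Agent.Y126.MU

open Module Finset Function Pool.Agent.Y126.JB Pool.Agent.TH125.Gal

variable {K : Type*} [Field K] [CharZero K] {T : Type*} [AddCommGroup T] [Module K T]
  [FiniteDimensional K T] {E : Type*} [AddCommGroup E] [Module K E] [FiniteDimensional K E]
  {S : Type} [Fintype S] [DecidableEq S]

/-- the action of an operator on multilinear maps by derivations -/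
noncomputable def DV (X : End K T) : End K (MultilinearMap K (fun _ : S => T) E) where
  toFun H := ∑ j, H.compLinearMap fun i => if i = j then X else LinearMap.id
  map_add' H H' := by
    rw [← Finset.sum_add_distrib]
    rfl
  map_smul' c H := by
    rw [RingHom.id_apply, Finset.smul_sum]
    rfl

theorem DV_apply (X : End K T) (H : MultilinearMap K (fun _ : S => T) E) (v : S → T) :
    DV X H v = ∑ j, H (update v j (X (v j))) := by
  change (∑ j, H.compLinearMap fun i => if i = j then X else LinearMap.id) v = _
  rw [_root_.sum_apply]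
  refine sum_congr rfl fun j _ => ?_
  rw [MultilinearMap.compLinearMap_apply]
  congr 1
  funext i
  by_cases hi : i = j
  · subst hi
    rw [if_pos rfl, update_self]
  · rw [if_neg hi, update_of_ne hi, LinearMap.id_apply]

theorem kill_iff {X : End K T} {H : MultilinearMap K (fun _ : S => T) E} :
    Kill X H ↔ DV X H = 0 := by
  constructor
  · intro h
    refine MultilinearMap.ext fun v => ?_
    rw [DV_apply]
    exact h v
  · intro h v
    rw [← DV_apply, h]
    rfl

theorem DV_smul (c : K) (X : End K T) : (DV (c • X) : End K (MultilinearMap K (fun _ : S => T) E)) =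
    c • DV X := by
  refine LinearMap.ext fun H => MultilinearMap.ext fun v => ?_
  rw [LinearMap.smul_apply, _root_.smul_apply, DV_apply, DV_apply, Finset.smul_sum]
  refine sum_congr rfl fun j _ => ?_
  rw [LinearMap.smul_apply, MultilinearMap.map_update_smul]

theorem DV_neg (X : End K T) : (DV (-X) : End K (MultilinearMap K (fun _ : S => T) E)) =
    -DV X := by
  rw [← neg_one_smul K X, DV_smul]
  exact neg_one_smul K (DV X : End K (MultilinearMap K (fun _ : S => T) E))

/-- The action reverses brackets. -/
theorem DV_br (X Y : End K T) : ad K (DV X : End K (MultilinearMap K (fun _ : S => T) E)) (DV Y) =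
    DV (ad K Y X) := by
  refine LinearMap.ext fun H => MultilinearMap.ext fun v => ?_
  rw [ad_apply, LinearMap.sub_apply, Module.End.mul_apply, Module.End.mul_apply,
    _root_.sub_apply, DV_apply, DV_apply, DV_apply]
  have h1 : ∀ (X Y : End K T), ∑ i, DV Y H (update v i (X (v i))) =
      ∑ i, H (update v i (Y (X (v i)))) +
        ∑ i, ∑ j ∈ univ.erase i, H (update (update v i (X (v i))) j (Y (v j))) := by
    intro X Y
    rw [← Finset.sum_add_distrib]
    refine sum_congr rfl fun i _ => ?_
    rw [DV_apply, ← Finset.add_sum_erase _ _ (Finset.mem_univ i), update_self, update_idem]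
    congr 1
    refine sum_congr rfl fun j hj => ?_
    rw [update_of_ne (Finset.ne_of_mem_erase hj)]
  have h3 : ∑ i, ∑ j ∈ univ.erase i, H (update (update v i (X (v i))) j (Y (v j))) =
      ∑ i, ∑ j ∈ univ.erase i, H (update (update v i (Y (v i))) j (X (v j))) := by
    rw [Finset.sum_comm' (s' := fun j => univ.erase j) (t' := univ) (by
      intro x y
      simp only [Finset.mem_univ, Finset.mem_erase, ne_eq, and_true, true_and]
      exact ⟨fun h h' => h h'.symm, fun h h' => h h'.symm⟩)]
    refine Finset.sum_congr rfl fun j _ => Finset.sum_congr rfl fun i hi => ?_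
    rw [update_comm (Finset.ne_of_mem_erase hi)]
  rw [h1, h1, h3, add_sub_add_right_eq_sub, ← Finset.sum_sub_distrib]
  refine sum_congr rfl fun j _ => ?_
  rw [ad_apply, LinearMap.sub_apply, Module.End.mul_apply, Module.End.mul_apply,
    MultilinearMap.map_update_sub]

/-- If `e` and `h` kill a multilinear map, then also `f`. -/
theorem kill_f {e h f : End K T} (hef : h = ad K e f) (hhe : ad K h e = (2 : K) • e)
    (hhf : ad K h f = (-2 : K) • f) {H : MultilinearMap K (fun _ : S => T) E} (h1 : Kill e H)
    (h2 : Kill h H) : Kill f H := by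
  rw [kill_iff] at h1 h2 ⊢
  by_contra hne
  -- the opposite triple
  have e1 : -(DV h : End K (MultilinearMap K (fun _ : S => T) E)) = ad K (DV e) (DV f) := by
    rw [DV_br, ← DV_neg]
    congr 1
    rw [hef, ad_apply, ad_apply, neg_sub]
  have e2 : ad K (-(DV h) : End K (MultilinearMap K (fun _ : S => T) E)) (DV e) =
      (2 : K) • DV e := by
    rw [← DV_neg, DV_br, ← DV_smul, ← hhe]
    congr 1
    rw [ad_apply, ad_apply]
    noncomm_ring
  have e3 : ad K (-(DV h) : End K (MultilinearMap K (fun _ : S => T) E)) (DV f) =
      (-2 : K) • DV f := by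
    rw [← DV_neg, DV_br, ← DV_smul, ← hhf]
    congr 1
    rw [ad_apply, ad_apply]
    noncomm_ring
  have h3 : DV e (DV f H) = 0 := by
    have h4 := LinearMap.congr_fun e1 H
    rw [LinearMap.neg_apply, h2, neg_zero, ad_apply, LinearMap.sub_apply, Module.End.mul_apply,
      Module.End.mul_apply, h1, map_zero, sub_zero] at h4
    exact h4.symm
  have h4 : (-(DV h) : End K (MultilinearMap K (fun _ : S => T) E)) (DV f H) =
      (-2 : K) • DV f H := by
    have h5 := LinearMap.congr_fun e3 H
    rw [ad_apply, LinearMap.sub_apply, Module.End.mul_apply, Module.End.mul_apply,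
      LinearMap.neg_apply (DV h) H, h2, neg_zero, map_zero, sub_zero] at h5
    exact h5
  obtain ⟨j, hj⟩ := no_neg e1 e2 (nil_of_ad e2) hne h3 h4
  have h5 : ((j + 2 : ℕ) : K) = 0 := by
    push_cast
    rw [← hj]
    ring
  rw [Nat.cast_eq_zero] at h5
  omega

end Pool.Agent.Y126.MU
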