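import Mathlib
import Pool.Agent.Y126.MU.Char
import Pool.Agent.Y126.MU.SlKill

/-!
# The triple given by the monodromy operator and a Frobenius element
-/

set_option linter.unusedSectionVars false

namespace Pool.Agent.Y126.MU

open Module Finset Function Pool.Agent.Y126.JB Pool.Agent.TH125.Gal

section

variable {K : Type*} [Field K] {T : Type*} [AddCommGroup T] [Module K T]
  [FiniteDimensional K T]

theorem cyc_coord {x : End K T} {D : ℕ} {v : T} {b : Basis (Fin (D + 1)) K T}
    (h0 : x ^ (D + 1) = 0) (hb : ∀ i, b i = (x ^ (i : ℕ)) v) (i : ℕ) (hi : i ≠ 0) (u : T) :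
    b.repr ((x ^ i) u) 0 = 0 := by
  have h3 : (b.coord 0) ∘ₗ (x ^ i) = 0 := by
    refine b.ext fun j => ?_
    rw [LinearMap.comp_apply, hb j, ← Module.End.mul_apply, ← pow_add, Basis.coord_apply,
      LinearMap.zero_apply]
    by_cases hij : i + (j : ℕ) < D + 1
    · have h4 : (x ^ (i + (j : ℕ))) v = b ⟨i + (j : ℕ), hij⟩ := (hb ⟨i + (j : ℕ), hij⟩).symm
      rw [h4, b.repr_self, Finsupp.single_apply, if_neg]
      intro h5
      rw [Fin.ext_iff] at h5
      have h6 : i + (j : ℕ) = 0 := h5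
      omega
    · obtain ⟨r, hr⟩ := Nat.exists_eq_add_of_le (not_lt.1 hij)
      rw [hr, pow_add, h0, zero_mul, LinearMap.zero_apply, map_zero b.repr, Finsupp.zero_apply]
  exact LinearMap.congr_fun h3 u

/-- An eigenvector of `φ` which generates. -/
theorem exists_gen {e φ : End K T} (hnil : IsNilpotent e) {D : ℕ} (hdim : finrank K T = D + 1)
    {v : T} (hv : (e ^ D) v ≠ 0) {q : K} (hφ : φ * e = q • (e * φ)) (hinj : Injective φ)
    (hq : ∀ i : ℕ, i ≠ 0 → q ^ i ≠ 1) :
    ∃ (u : T) (lam : K), lam ≠ 0 ∧ φ u = lam • u ∧ (e ^ D) u ≠ 0 := by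
  have h0 := pow_top hnil hdim
  obtain ⟨b, hb⟩ := exists_cyc hnil hdim hv
  have hφi : ∀ (i : ℕ), φ * e ^ i = q ^ i • (e ^ i * φ) := by
    intro i
    induction i with
    | zero => simp
    | succ i ih =>
      rw [pow_succ e i, ← mul_assoc, ih, smul_mul_assoc, mul_assoc, hφ, mul_smul_comm, smul_smul,
        ← mul_assoc, pow_succ]
  have hφa : ∀ (i : ℕ) (x : T), φ ((e ^ i) x) = q ^ i • (e ^ i) (φ x) := by
    intro i x
    have h1 := LinearMap.congr_fun (hφi i) x
    exact h1
  have hb0 : b 0 = v := by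
    rw [hb 0]
    rfl
  set lam := b.repr (φ v) 0 with hlam
  -- the coordinate
  have hc : ∀ x, b.repr (φ x) 0 = lam * b.repr x 0 := by
    intro x
    have h3 : (b.coord 0) ∘ₗ φ = lam • b.coord 0 := by
      refine b.ext fun j => ?_
      rw [LinearMap.comp_apply, Basis.coord_apply, LinearMap.smul_apply, Basis.coord_apply,
        b.repr_self, Finsupp.single_apply]
      by_cases hj : j = 0
      · rw [if_pos hj, hj, hb0, smul_eq_mul, mul_one]
      · rw [if_neg hj, hb j, hφa, map_smul, Finsupp.smul_apply,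
          cyc_coord h0 hb (j : ℕ) (fun h => hj (Fin.ext h)), smul_zero, smul_zero]
    exact LinearMap.congr_fun h3 x
  obtain ⟨u, hu, hu0⟩ : ∃ u, φ u = lam • u ∧ u ≠ 0 := by
    by_contra hcon
    push Not at hcon
    have h1 : Injective (φ - lam • 1 : End K T) := by
      rw [injective_iff_map_eq_zero]
      intro x hx
      exact hcon x (sub_eq_zero.1 hx)
    obtain ⟨x, hx⟩ := LinearMap.surjective_of_injective h1 (b 0)
    have h2 := congrArg (fun t => b.repr t 0) hx
    have h3 : b.repr (φ x - lam • x) 0 = b.repr (b 0) 0 := h2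
    rw [map_sub, map_smul, Finsupp.sub_apply, Finsupp.smul_apply, hc, smul_eq_mul, sub_self,
      b.repr_self, Finsupp.single_eq_same] at h3
    exact zero_ne_one h3
  have hlam0 : lam ≠ 0 := by
    intro h1
    rw [h1, zero_smul] at hu
    exact hu0 (hinj (by rw [hu, map_zero]))
  refine ⟨u, lam, hlam0, hu, fun hD => ?_⟩
  -- the last nonzero power
  classical
  have hex : ∃ i, (e ^ i) u = 0 := ⟨D, hD⟩
  have h1 := Nat.find_spec hex
  have h2 : Nat.find hex ≠ 0 := by
    intro h
    rw [h, pow_zero, Module.End.one_apply] at h1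
    exact hu0 h1
  obtain ⟨i, hi⟩ := Nat.exists_eq_succ_of_ne_zero h2
  have h3 : (e ^ i) u ≠ 0 := Nat.find_min hex (by omega)
  have hiD : i < D := by
    have := Nat.find_min' hex hD
    omega
  rw [hi, Nat.succ_eq_add_one, pow_succ', Module.End.mul_apply] at h1
  -- the kernel of `e`
  have hker : ∀ x, e x = 0 → ∃ c : K, x = c • (e ^ D) v := by
    intro x hx
    refine ⟨b.repr x (Fin.last D), ?_⟩
    have h4 : ∀ j : Fin (D + 1), (j : ℕ) < D → b.repr x j = 0 := by
      intro j hj
      have h5 : ∑ k, b.repr x k • (e ^ ((k : ℕ) + 1)) v = 0 := by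
        have h6 : e (∑ k, b.repr x k • b k) = 0 := by rw [b.sum_repr, hx]
        rw [map_sum] at h6
        rw [← h6]
        refine sum_congr rfl fun k _ => ?_
        rw [map_smul, hb k, pow_succ', Module.End.mul_apply]
      have h6 := congrArg (fun t => b.repr t ⟨(j : ℕ) + 1, by omega⟩) h5
      have h7 : b.repr (∑ k, b.repr x k • (e ^ ((k : ℕ) + 1)) v) ⟨(j : ℕ) + 1, by omega⟩ = 0 := by
        rw [h5, map_zero, Finsupp.zero_apply]
      rw [map_sum, Finsupp.finsetSum_apply, Finset.sum_eq_single j] at h7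
      · have h8 : (e ^ ((j : ℕ) + 1)) v = b ⟨(j : ℕ) + 1, by omega⟩ :=
          (hb ⟨(j : ℕ) + 1, by omega⟩).symm
        rw [map_smul, Finsupp.smul_apply, h8, b.repr_self, Finsupp.single_eq_same, smul_eq_mul,
          mul_one] at h7
        exact h7
      · intro k _ hk
        by_cases hkD : (k : ℕ) + 1 < D + 1
        · have h8 : (e ^ ((k : ℕ) + 1)) v = b ⟨(k : ℕ) + 1, hkD⟩ :=
            (hb ⟨(k : ℕ) + 1, hkD⟩).symm
          rw [map_smul, Finsupp.smul_apply, h8, b.repr_self, Finsupp.single_apply, if_neg,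
            smul_zero]
          intro h9
          rw [Fin.ext_iff] at h9
          have h10 : (k : ℕ) + 1 = (j : ℕ) + 1 := h9
          exact hk (Fin.ext (by omega))
        · obtain ⟨r, hr⟩ := Nat.exists_eq_add_of_le (not_lt.1 hkD)
          rw [hr, pow_add, h0, zero_mul, LinearMap.zero_apply, smul_zero, map_zero,
            Finsupp.zero_apply]
      · intro h8
        exact absurd (mem_univ _) h8
    conv_lhs => rw [← b.sum_repr x]
    rw [Finset.sum_eq_single (Fin.last D)]
    · rw [hb (Fin.last D), Fin.val_last]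
    · intro k _ hk
      rw [h4 k, zero_smul]
      have h5 : (k : ℕ) ≠ D := fun h => hk (Fin.ext h)
      omega
    · intro h8
      exact absurd (mem_univ _) h8
  obtain ⟨c, hcx⟩ := hker _ h1
  have hc0 : c ≠ 0 := by
    rintro rfl
    rw [zero_smul] at hcx
    exact h3 hcx
  have e1 : φ ((e ^ i) u) = (q ^ i * lam) • (e ^ i) u := by
    rw [hφa, hu, map_smul, smul_smul]
  have e2 : φ ((e ^ D) v) = (q ^ D * lam) • (e ^ D) v := by
    rw [hφa]
    have h4 : (e ^ D) (φ v) = lam • (e ^ D) v := by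
      have h5 : φ v = ∑ k, b.repr (φ v) k • b k := (b.sum_repr _).symm
      rw [h5, map_sum, Finset.sum_eq_single 0]
      · rw [map_smul, hb0]
      · intro k _ hk
        have h6 : (k : ℕ) ≠ 0 := fun h => hk (Fin.ext h)
        obtain ⟨r, hr⟩ : ∃ r, D + (k : ℕ) = (D + 1) + r := ⟨(k : ℕ) - 1, by omega⟩
        rw [map_smul, hb k, ← Module.End.mul_apply, ← pow_add, hr, pow_add, h0, zero_mul,
          LinearMap.zero_apply, smul_zero]
      · intro h8
        exact absurd (mem_univ _) h8
    rw [h4, smul_smul]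
  rw [hcx, map_smul, e2, smul_smul, smul_smul] at e1
  have h4 : (c * (q ^ D * lam) - q ^ i * lam * c) • (e ^ D) v = 0 := by
    rw [sub_smul, e1, sub_self]
  have h5 := (smul_eq_zero.1 h4).resolve_right hv
  have h6 : c * lam * (q ^ D - q ^ i) = 0 := by linear_combination h5
  have h7 := (mul_eq_zero.1 h6).resolve_left (mul_ne_zero hc0 hlam0)
  have hq0 : q ≠ 0 := by
    rintro rfl
    have h8 : ∀ x, φ (e x) = 0 := fun x => by
      have h9 := LinearMap.congr_fun hφ x
      rw [zero_smul] at h9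
      exact h9
    have h9 : ∀ x, e x = 0 := fun x => hinj (by rw [h8, map_zero])
    apply h3
    have h10 : i ≠ 0 → (e ^ i) u = 0 := by
      intro h10
      obtain ⟨m, rfl⟩ := Nat.exists_eq_succ_of_ne_zero h10
      rw [Nat.succ_eq_add_one, pow_succ', Module.End.mul_apply, h9]
    by_cases hi0 : i = 0
    · exfalso
      apply hv
      obtain ⟨m, rfl⟩ := Nat.exists_eq_succ_of_ne_zero (show D ≠ 0 by omega)
      rw [Nat.succ_eq_add_one, pow_succ', Module.End.mul_apply, h9]
    · exact h10 hi0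
  obtain ⟨r, hr⟩ := Nat.exists_eq_add_of_lt hiD
  apply hq (r + 1) (Nat.succ_ne_zero r)
  have h8 : q ^ i * (q ^ (r + 1) - 1) = 0 := by
    rw [hr, add_assoc, pow_add] at h7
    linear_combination h7
  exact sub_eq_zero.1 ((mul_eq_zero.1 h8).resolve_left (pow_ne_zero _ hq0))

end

section

variable {K : Type*} [Field K] [CharZero K] {T : Type*} [AddCommGroup T] [Module K T]
  [FiniteDimensional K T]

/-- **The triple.** -/
theorem exists_prin {e : End K T} (hnil : IsNilpotent e) {D : ℕ} (hdim : finrank K T = D + 1)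
    {u : T} (hu : (e ^ D) u ≠ 0) :
    ∃ (h f : End K T), Prin e h f D fun i => (e ^ i) u := by
  have h0 := pow_top hnil hdim
  obtain ⟨b, hb⟩ := exists_cyc hnil hdim hu
  have hz : ∀ i, D < i → (e ^ i) u = 0 := by
    intro i hi
    obtain ⟨r, rfl⟩ := Nat.exists_eq_add_of_lt hi
    rw [show D + r + 1 = (D + 1) + r by ring, pow_add, h0, zero_mul, LinearMap.zero_apply]
  let h : End K T := b.constr K fun i => (2 * ((i : ℕ) : K) - D) • (e ^ (i : ℕ)) u
  let f : End K T := b.constr K fun i =>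
    (((i : ℕ) : K) * ((D : K) + 1 - (i : ℕ))) • (e ^ ((i : ℕ) - 1)) u
  have hh : ∀ i : ℕ, h ((e ^ i) u) = (2 * (i : K) - D) • (e ^ i) u := by
    intro i
    by_cases hi : i < D + 1
    · have h1 : (e ^ i) u = b ⟨i, hi⟩ := (hb ⟨i, hi⟩).symm
      rw [h1]
      change b.constr K _ (b ⟨i, hi⟩) = _
      rw [Basis.constr_basis, h1]
    · rw [hz i (by omega), map_zero, smul_zero]
  have hf : ∀ i : ℕ, f ((e ^ i) u) = ((i : K) * ((D : K) + 1 - i)) • (e ^ (i - 1)) u := by
    intro i
    by_cases hi : i < D + 1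
    · have h1 : (e ^ i) u = b ⟨i, hi⟩ := (hb ⟨i, hi⟩).symm
      rw [h1]
      change b.constr K _ (b ⟨i, hi⟩) = _
      rw [Basis.constr_basis]
    · rw [hz i (by omega), map_zero]
      by_cases hi1 : i = D + 1
      · rw [hi1]
        push_cast
        rw [sub_self, mul_zero, zero_smul]
      · rw [hz (i - 1) (by omega), smul_zero]
  refine ⟨h, f, fun i => ?_, ?_, hh, ?_, fun i => ?_, fun x => ?_, fun c hc i hi => ?_⟩
  · rw [← Module.End.mul_apply, ← pow_succ']
  · exact hz _ (Nat.lt_succ_self D)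
  · have h1 := hf 0
    rw [Nat.cast_zero, zero_mul, zero_smul] at h1
    exact h1
  · have h1 := hf (i + 1)
    rw [Nat.add_sub_cancel] at h1
    rw [h1]
    congr 1
    push_cast
    ring
  · refine ⟨fun i => if hi : i < D + 1 then b.repr x ⟨i, hi⟩ else 0, ?_⟩
    conv_lhs => rw [← b.sum_repr x]
    rw [Finset.sum_range]
    refine sum_congr rfl fun i _ => ?_
    beta_reduce
    rw [hb i, dif_pos i.2]
  · have h1 : ∑ j : Fin (D + 1), c (j : ℕ) • b j = 0 := by
      rw [Finset.sum_range] at hc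
      rw [← hc]
      exact sum_congr rfl fun j _ => by rw [hb j]
    exact Fintype.linearIndependent_iff.1 b.linearIndependent _ h1 ⟨i, by omega⟩

end

end Pool.Agent.Y126.MU
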