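import Mathlib
import Pool.Agent.Y126.MU.Weil
import Pool.Agent.Y126.JB.Log

/-!
# Purity
-/

set_option linter.unusedSectionVars false

namespace Pool.Agent.Y126.MU

open Module Finset Function Pool.Agent.Y126.JB Pool.Agent.TH125.Gal Pool.Agent.TH118.SG
open Pool.Agent.H204R3.SP

section coeff

variable {K : Type*} [Field K] [CharZero K] {V : Type*} [AddCommGroup V] [Module K V]

/-- coefficients of a polynomial with values in a vector space -/
theorem coeff_zero' {d : ℕ} (c : ℕ → V) (h : ∀ n : ℕ, ∑ l ∈ range d, ((n : K) ^ l) • c l = 0)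
    {l : ℕ} (hl : l < d) : c l = 0 := by
  rw [← Module.forall_dual_apply_eq_zero_iff K]
  intro ψ
  have h1 : (∑ l ∈ range d, Polynomial.C (ψ (c l)) * Polynomial.X ^ l : Polynomial K) = 0 := by
    refine Polynomial.eq_zero_of_infinite_isRoot _ ?_
    refine (Set.infinite_range_of_injective (f := fun n : ℕ => (n : K))
      Nat.cast_injective).mono ?_
    rintro _ ⟨n, rfl⟩
    rw [Set.mem_ofPred_eq, Polynomial.IsRoot.def, Polynomial.eval_finsetSum]
    have h2 := congrArg ψ (h n)
    rw [map_sum, map_zero] at h2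
    rw [← h2]
    refine sum_congr rfl fun l _ => ?_
    rw [Polynomial.eval_mul, Polynomial.eval_C, Polynomial.eval_pow, Polynomial.eval_X, map_smul,
      smul_eq_mul, mul_comm]
  have h2 := congrArg (fun p => Polynomial.coeff p l) h1
  have h3 : (∑ l ∈ range d, Polynomial.C (ψ (c l)) * Polynomial.X ^ l : Polynomial K).coeff l =
      0 := by rw [h1, Polynomial.coeff_zero]
  rw [Polynomial.finsetSum_coeff, Finset.sum_eq_single l] at h3
  · rw [Polynomial.coeff_C_mul_X_pow, if_pos rfl] at h3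
    exact h3
  · intro i _ hi
    rw [Polynomial.coeff_C_mul_X_pow, if_neg (Ne.symm hi)]
  · intro h4
    exact absurd (mem_range.2 hl) h4

end coeff

section log

variable {K : Type*} [Field K] [CharZero K] {T : Type*} [AddCommGroup T] [Module K T]

/-- the Frobenius relation for the logarithm -/
theorem lg_frob {u φ : End K T} {k : ℕ} (hu : (u - 1) ^ k = 0) {q : ℕ}
    (hφ : φ * u = u ^ q * φ) : φ * lg K (u - 1) k = (q : K) • (lg K (u - 1) k * φ) := by
  have h1 : (1 + (u - 1) : End K T) = u := by abel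
  have hpow := fun m => pow_eq (K := K) (u - 1) hu k (by omega) m
  rw [h1] at hpow
  have hφn : ∀ n : ℕ, φ * u ^ n = u ^ (q * n) * φ := by
    intro n
    induction n with
    | zero => simp
    | succ n ih =>
      rw [pow_succ u n, ← mul_assoc, ih, mul_assoc, hφ, ← mul_assoc, ← pow_add, Nat.mul_succ]
  have h2 := coeff_zero' (K := K) (d := k + 2)
    (fun l => φ * Al K (u - 1) k l - (q : K) ^ l • (Al K (u - 1) k l * φ)) (by
      intro n
      have h3 := hφn n
      rw [hpow, hpow] at h3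
      rw [← sub_eq_zero, Finset.mul_sum, Finset.sum_mul,
        ← Finset.sum_range (f := fun l => φ * (((n : K) ^ l) • Al K (u - 1) k l)),
        ← Finset.sum_range (f := fun l => ((((q * n : ℕ) : K) ^ l) • Al K (u - 1) k l) * φ),
        ← Finset.sum_sub_distrib] at h3
      rw [← h3]
      refine sum_congr rfl fun l _ => ?_
      rw [mul_smul_comm, smul_mul_assoc, smul_sub, smul_smul]
      push_cast
      rw [mul_pow, mul_comm ((n : K) ^ l)]) (l := 1) (by omega)
  beta_reduce at h2
  rw [pow_one] at h2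
  exact sub_eq_zero.1 h2

end log

section pure

variable {K : Type} [Field K] [CharZero K] [IsAlgClosed K] {T : Type} [AddCommGroup T]
  [Module K T] [FiniteDimensional K T] {E : Type} [AddCommGroup E] [Module K E]
  [FiniteDimensional K E] {S : Type} [Fintype S] [DecidableEq S] {G : Type} [Group G]
  {B : T →ₗ[K] T →ₗ[K] K} {ρ : G →* (T →ₗ[K] T)} {σ : G →* (E →ₗ[K] E)} {μ : G → K}
  {e h f : End K T} {D : ℕ} {w : ℕ → T}

theorem Prin.exists_basis (hp : Prin e h f D w) (hdim : finrank K T = D + 1) :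
    ∃ b : Basis (Fin (D + 1)) K T, ∀ i, b i = w i := by
  obtain ⟨b, hb⟩ := exists_cyc hp.nil hdim (v := w 0) (by
    rw [hp.pow, zero_add]
    exact hp.ne_zero (le_refl D))
  exact ⟨b, fun i => by rw [hb, hp.pow, zero_add]⟩

omit [CharZero K] [IsAlgClosed K] [FiniteDimensional K E] in
theorem pow_eig {F : End K E} {x : E} {a : K} (hx : F x = a • x) (n : ℕ) :
    (F ^ n) x = a ^ n • x := by
  induction n with
  | zero => simp
  | succ n ih => rw [pow_succ, Module.End.mul_apply, hx, map_smul, ih, smul_smul, pow_succ']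

/-- eigenvalues of powers -/
theorem exists_root_pow {F : End K E} {M : ℕ} {x : E} (hx0 : x ≠ 0) {b : K}
    (hx : (F ^ M) x = b • x) : ∃ (a : K) (y : E), y ≠ 0 ∧ F y = a • y ∧ a ^ M = b := by
  have h1 : ∀ y ∈ LinearMap.ker (F ^ M - b • 1), F y ∈ LinearMap.ker (F ^ M - b • 1) := by
    intro y hy
    rw [LinearMap.mem_ker, LinearMap.sub_apply, LinearMap.smul_apply, Module.End.one_apply,
      sub_eq_zero] at hy ⊢
    rw [← Module.End.mul_apply, ← pow_succ, pow_succ', Module.End.mul_apply, hy, map_smul]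
  have hne : Nontrivial (LinearMap.ker (F ^ M - b • 1 : End K E)) := by
    refine ⟨⟨⟨x, ?_⟩, 0, fun h => hx0 (congrArg Subtype.val h)⟩⟩
    rw [LinearMap.mem_ker, LinearMap.sub_apply, LinearMap.smul_apply, Module.End.one_apply, hx,
      sub_self]
  obtain ⟨a, ha⟩ := Module.End.exists_eigenvalue (F.restrict h1)
  obtain ⟨y, hy⟩ := ha.exists_hasEigenvector
  have hy1 : F y = a • (y : E) := congrArg Subtype.val hy.apply_eq_smul
  have hy0 : (y : E) ≠ 0 := fun h => hy.2 (Subtype.ext h)
  refine ⟨a, y, hy0, hy1, ?_⟩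
  have h2 := pow_eig hy1 M
  have h3 : (F ^ M) (y : E) = b • (y : E) := by
    have h4 := y.2
    rw [LinearMap.mem_ker, LinearMap.sub_apply, LinearMap.smul_apply, Module.End.one_apply,
      sub_eq_zero] at h4
    exact h4
  have h4 : (a ^ M - b) • (y : E) = 0 := by rw [sub_smul, ← h2, h3, sub_self]
  exact sub_eq_zero.1 ((smul_eq_zero.1 h4).resolve_right hy0)

/-- the operator `h` kills the equivariant maps to a pure representation -/
theorem h_kill (hp : Prin e h f D w) (hdim : finrank K T = D + 1) {φ : G} {lam : K} {q : ℕ}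
    (hlam : lam ≠ 0) (hq : 2 ≤ q) (hφ : ∀ i, ρ φ (w i) = (lam * (q : K) ^ i) • w i)
    (hμ : lam ^ 2 * (q : K) ^ D = μ φ) {j : K →+* ℂ}
    (hpure : ∀ x : E, x ≠ 0 → ∀ a : K, σ φ x = a • x → ‖j a‖ ^ 2 = ‖j (μ φ)‖ ^ Fintype.card S)
    {H : MultilinearMap K (fun _ : S => T) E} (hH : Eqv ρ σ H) : Kill h H := by
  obtain ⟨Δ, hΔ, hH⟩ := hH
  obtain ⟨M, hM, hφM⟩ := exists_pow hΔ φ
  obtain ⟨b, hb⟩ := hp.exists_basis hdim
  -- the values on the basis
  have key : ∀ r : S → Fin (D + 1), H (fun s => b (r s)) ≠ 0 →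
      2 * ∑ s, (r s : ℕ) = Fintype.card S * D := by
    intro r hr
    have h1 : (σ φ ^ M) (H fun s => b (r s)) =
        (∏ s, (lam * (q : K) ^ (r s : ℕ)) ^ M) • H fun s => b (r s) := by
      have h2 := hH _ hφM fun s => b (r s)
      rw [map_pow, map_pow] at h2
      rw [← h2, ← MultilinearMap.map_smul_univ]
      congr 1
      funext s
      rw [hb]
      exact pow_eig (hφ _) M
    obtain ⟨a, y, hy0, hy, hay⟩ := exists_root_pow hr h1
    have h2 := hpure y hy0 a hy
    have h3 : ‖j a‖ ^ M = (∏ s, (‖j lam‖ * (q : ℝ) ^ (r s : ℕ))) ^ M := by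
      rw [← norm_pow, ← map_pow, hay, map_prod, norm_prod, ← Finset.prod_pow]
      refine prod_congr rfl fun s _ => ?_
      rw [map_pow, norm_pow, map_mul, map_pow, norm_mul, norm_pow, map_natCast,
        Complex.norm_natCast]
    have hpos : 0 ≤ ∏ s, (‖j lam‖ * (q : ℝ) ^ (r s : ℕ)) :=
      prod_nonneg fun s _ => mul_nonneg (norm_nonneg _) (pow_nonneg (Nat.cast_nonneg _) _)
    have h4 : ‖j a‖ = ∏ s, (‖j lam‖ * (q : ℝ) ^ (r s : ℕ)) :=
      (pow_left_inj₀ (norm_nonneg _) hpos hM.ne').1 h3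
    have hl : ‖j lam‖ ≠ 0 := by
      rw [norm_ne_zero_iff]
      exact (map_ne_zero j).2 hlam
    rw [h4, ← hμ, map_mul, map_pow, map_pow, norm_mul, norm_pow, norm_pow, map_natCast,
      Complex.norm_natCast, Finset.prod_mul_distrib, Finset.prod_const, Finset.card_univ,
      Finset.prod_pow_eq_pow_sum, mul_pow, mul_pow, ← pow_mul, ← pow_mul, ← pow_mul, ← pow_mul,
      mul_comm 2 (Fintype.card S)] at h2
    have h5 : (q : ℝ) ^ ((∑ s, (r s : ℕ)) * 2) = (q : ℝ) ^ (D * Fintype.card S) :=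
      mul_left_cancel₀ (pow_ne_zero _ hl) h2
    have h6 : (∑ s, (r s : ℕ)) * 2 = D * Fintype.card S :=
      Nat.pow_right_injective hq (by exact_mod_cast h5)
    rw [mul_comm 2, h6, mul_comm]
  rw [kill_iff]
  refine Module.Basis.ext_multilinear (fun _ => b) fun r => ?_
  rw [DV_apply]
  have h1 : ∀ s, H (update (fun s => b (r s)) s (h (b (r s)))) =
      (2 * ((r s : ℕ) : K) - D) • H fun s => b (r s) := by
    intro s
    have h2 : h (b (r s)) = (2 * ((r s : ℕ) : K) - D) • b (r s) := by rw [hb, hp.h_w]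
    rw [h2, MultilinearMap.map_update_smul, update_eq_self]
  rw [sum_congr rfl fun s _ => h1 s, ← Finset.sum_smul, _root_.zero_apply]
  by_cases hr : H (fun s => b (r s)) = 0
  · rw [hr, smul_zero]
  · have h2 := key r hr
    have h3 : ∑ s, (2 * ((r s : ℕ) : K) - D) = 0 := by
      rw [Finset.sum_sub_distrib, ← Finset.mul_sum, Finset.sum_const, Finset.card_univ,
        nsmul_eq_mul, sub_eq_zero]
      exact_mod_cast h2
    rw [h3, zero_smul]

end pure

end Pool.Agent.Y126.MU
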