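import Pool.Agent.TH125.Gal.Pub

/-!
# Families of varieties with a maximal unipotent place: definitions
-/

open CategoryTheory AlgebraicGeometry

universe u

namespace Pool.Agent.Y126.MU

open Pool.Agent.TH125.Gal

section Alg

variable {K : Type} [Field K] {A : Type} [Ring A] [Algebra K A] {Γ : Type} [Group Γ]

/-- `f` is pure with respect to the embedding `ι` of the coefficients: every eigenvalue `y` of `f` on
`gr m` satisfies `|ι y| ^ 2 = |ι x| ^ m`. -/
def PureAct (ι : K →+* ℂ) (x : K) (gr : ℕ → Submodule K A) (f : A ≃ₐ[K] A) : Prop :=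
  ∀ m, ∀ a ∈ gr m, a ≠ 0 → ∀ y : K, f a = y • a → ‖ι y‖ ^ 2 = ‖ι x‖ ^ m

/-- The action respects the grading. -/
def GradedActs (gr : ℕ → Submodule K A) (ρ : Γ →* (A ≃ₐ[K] A)) : Prop :=
  ∀ g m, ∀ a ∈ gr m, ρ g a ∈ gr m

/-- `g` acts on `T` by a unipotent map with exactly one Jordan block. -/
def MaxUnipotent (T : Submodule K A) (ρ : Γ →* (A ≃ₐ[K] A)) (g : Γ) : Prop :=
  (∀ t ∈ T, (((ρ g).toLinearMap - LinearMap.id : Module.End K A) ^ Module.finrank K T) t = 0) ∧
    ∃ t ∈ T, (((ρ g).toLinearMap - LinearMap.id : Module.End K A) ^ (Module.finrank K T - 1)) t ≠ 0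

/-- `g` acts on `T` by a unipotent map with exactly one Jordan block and by `χ` trivially, and
`φ g = g ^ q φ` on `T`, with a natural number `q ≥ 2`. -/
def MaximalActs (χ : Γ →* Kˣ) (T : Submodule K A) (ρ : Γ →* (A ≃ₐ[K] A)) (g φ : Γ) : Prop :=
  χ g = 1 ∧ MaxUnipotent T ρ g ∧ ∃ q : ℕ, 2 ≤ q ∧ ∀ t ∈ T, ρ φ (ρ g t) = ρ (g ^ q) (ρ φ t)

/-- `g` acts trivially and `φ` is pure. -/
def GoodActs (χ : Γ →* Kˣ) (ι : K →+* ℂ) (gr : ℕ → Submodule K A) (ρ : Γ →* (A ≃ₐ[K] A))
    (g φ : Γ) : Prop :=
  TrivAct ρ g ∧ PureAct ι (χ φ : K) gr (ρ φ)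

/-- The eigenvalues of `g` on `T`, with their multiplicities, are the first `dim T` members of a
geometric progression `a, a c, a c ^ 2, …`. -/
def GeometricAct (T : Submodule K A) (ρ : Γ →* (A ≃ₐ[K] A)) (g : Γ) : Prop :=
  ∃ a c : K, ∀ y : K,
    Module.finrank K ↥(T ⊓ Module.End.maxGenEigenspace (ρ g).toLinearMap y) =
      Nat.card {i : ℕ // i < Module.finrank K T ∧ a * c ^ i = y}

/-- `T` has dimension two or some element of `Γ` acts on `T` with eigenvalues that are not a
geometric progression. -/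
def NonGeometric (T : Submodule K A) (ρ : Γ →* (A ≃ₐ[K] A)) : Prop :=
  Module.finrank K T = 2 ∨ ∃ γ : Γ, ¬ GeometricAct T ρ γ

end Alg

open Pool.Agent.H914 Pool.Agent.H914.VarClass Pool.Agent.H914.VarClass.Obj
  Pool.Agent.H914.WeilCohomology Pool.Agent.H281R3.HT Pool.Agent.W552

variable {k : Type u} [Field k] {𝒱 : VarClass k} {ops : CycleOps 𝒱}
  {W : WeilCohomology.{u, 0} ops} {Γ : Type} [Group Γ]

/-- There is a place, with an element `g` of the inertia group and an element `φ` of the
decomposition group, at which `X i` is maximally degenerate and `Z` and the other `X j` are good. -/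
def HasPlace (χ : Γ →* W.Kˣ) (ι : W.K →+* ℂ) {I : Type} (X : I → GVar W Γ) (Z : GVar W Γ)
    (i : I) : Prop :=
  ∃ g φ : Γ, MaximalActs χ (transcendental W (X i).X) (X i).act g φ ∧
    GoodActs χ ι (W.gr Z.X) Z.act g φ ∧ ∀ j, j ≠ i → GoodActs χ ι (W.gr (X j).X) (X j).act g φ

/-- `Γ` acts on the cohomology of the varieties `X i` of odd dimension like a Galois group; numerical
and homological equivalence coincide for them; their transcendental cohomology is in the middle
degree; for every `i` it has dimension two or some element of `Γ` acts on it with eigenvalues that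
are not a geometric progression, and there is a place at which `X i` is maximally degenerate and `Z`
and the other `X j` are good. Nothing is assumed on irreducible or semisimple representations. -/
structure MaximalFamily (χ : Γ →* W.Kˣ) (ι : W.K →+* ℂ) {I : Type} (X : I → GVar W Γ)
    (Z : GVar W Γ) : Prop where
  odd : ∀ i, Odd (X i).X.dim
  galois : ∀ i, IsGaloisAct χ (W.gr (X i).X) (X i).X.dim (W.tr (X i).X)
    (algClasses W (X i).X) (X i).act
  homEqNum : ∀ i, HomEqNum W (X i).X
  middle : ∀ i, transcendental W (X i).X ≤ W.gr (X i).X (X i).X.dim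
  nonGeometric : ∀ i, NonGeometric (transcendental W (X i).X) (X i).act
  graded : GradedActs (W.gr Z.X) Z.act
  place : ∀ i, HasPlace χ ι X Z i

end Pool.Agent.Y126.MU
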