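import Pool.Agent.TH118.SG.Step

/-!
# Degrees
-/

open CategoryTheory AlgebraicGeometry Finset

set_option linter.unusedSectionVars false

universe u v w

namespace Pool.Agent.Y126.MU

open Pool.Agent.TH125.Gal
open Pool.Agent.H914 Pool.Agent.H914.VarClass Pool.Agent.H914.VarClass.Obj
  Pool.Agent.H914.WeilCohomology Pool.Agent.H281R3.HT Pool.Agent.W552

variable {k : Type u} [Field k] {𝒱 : VarClass k} {ops : CycleOps 𝒱}
  {W : WeilCohomology.{u, v} ops} {X : 𝒱.Obj}

theorem bil_gr {a b : W.H X} {i l : ℕ} (ha : a ∈ W.gr X i) (hb : b ∈ W.gr X l)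
    (h : i + l ≠ 2 * X.dim) : bil W X a b = 0 := by
  rw [bil_apply]
  exact W.tr_eq_zero (W.mul_mem ha hb) h

/-- the projectors are adjoint -/
theorem bil_proj {m m' : ℕ} (hm : m + m' = 2 * X.dim) (a b : W.H X) :
    bil W X (proj (W.isInternal X) m a) b = bil W X a (proj (W.isInternal X) m' b) := by
  refine gr_induction (W.isInternal X) (p := fun a => bil W X (proj (W.isInternal X) m a) b =
    bil W X a (proj (W.isInternal X) m' b)) ?_ ?_ a
  · intro i a ha
    refine gr_induction (W.isInternal X) (p := fun b => bil W X (proj (W.isInternal X) m a) b =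
      bil W X a (proj (W.isInternal X) m' b)) ?_ ?_ b
    · intro l b hb
      by_cases h1 : i = m
      · subst h1
        rw [proj_same _ ha]
        by_cases h2 : l = m'
        · subst h2
          rw [proj_same _ hb]
        · rw [proj_ne _ hb h2, map_zero, bil_gr ha hb (by omega)]
      · rw [proj_ne _ ha h1, map_zero, LinearMap.zero_apply]
        by_cases h2 : l = m'
        · subst h2
          rw [proj_same _ hb, bil_gr ha hb (by omega)]
        · rw [proj_ne _ hb h2, map_zero]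
    · intro b b' hb hb'
      rw [map_add, map_add, map_add, hb, hb']
  · intro a a' ha ha'
    rw [map_add, map_add, map_add, LinearMap.add_apply, LinearMap.add_apply, ha, ha']

/-- the degree of the basis elements -/
def sdeg (s : SB W X) (i : Fin s.NC ⊕ Fin s.NT) : ℕ := i.elim (fun i => 2 * s.jC i) fun _ => X.dim

theorem e_gr (hmid : transcendental W X ≤ W.gr X X.dim) (s : SB W X)
    (i : Fin s.NC ⊕ Fin s.NT) : s.e i ∈ W.gr X (sdeg s i) := by
  rcases i with i | i
  · rw [s.e_inl]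
    exact alg_gr (s.alg i)
  · rw [s.e_inr]
    exact hmid (s.bT i).2

/-- the dual classes are homogeneous -/
theorem uC_gr (hmid : transcendental W X ≤ W.gr X X.dim) (s : SB W X) (i : Fin s.NC) :
    (s.uC i : W.H X) ∈ W.gr X (2 * (X.dim - s.jC i)) := by
  have hj := jC_le s i
  have h1 : proj (W.isInternal X) (2 * (X.dim - s.jC i)) (s.uC i : W.H X) = s.uC i := by
    refine s.ext_e fun j => ?_
    rw [bil_proj (m' := 2 * s.jC i) (by omega)]
    rcases j with j | j
    · rw [s.e_inl]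
      by_cases h2 : s.jC j = s.jC i
      · rw [← h2, proj_same _ (alg_gr (s.alg j))]
      · rw [proj_ne _ (alg_gr (s.alg j)) (by omega), map_zero, s.uC_bC, if_neg]
        rintro rfl
        exact h2 rfl
    · rw [s.e_inr]
      by_cases h2 : X.dim = 2 * s.jC i
      · rw [← h2, proj_same _ (hmid (s.bT j).2)]
      · rw [proj_ne _ (hmid (s.bT j).2) h2, map_zero, alg_trans (s.bT j).2 (s.uC i).2]
  rw [← h1]
  exact proj_mem _ _ _

theorem mono_gr {Y : 𝒱.Obj} {n : ℕ} (π : Fin n → (Y ⟶ X)) (a : Fin n → W.H X) (d : Fin n → ℕ)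
    (h : ∀ p, a p ∈ W.gr X (d p)) : mono π a ∈ W.gr Y (∑ p, d p) := by
  induction n with
  | zero =>
    rw [mono, List.ofFn_zero, List.prod_nil, Finset.univ_eq_empty, Finset.sum_empty]
    exact W.one_mem Y
  | succ n ih =>
    rw [mono_succ, Fin.sum_univ_succ]
    exact W.mul_mem (W.map_mem _ (h 0)) (ih _ _ _ fun p => h p.succ)

section

variable {P : Polarized 𝒱} {n : ℕ} {Z : 𝒱.Obj} {s : SB W P.X}
  {b : Module.Basis (Fin (n + 1) → Fin s.NC ⊕ Fin s.NT) W.K (W.H (nest ops n fun _ => P).X)}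
  (hb : ∀ r, b r = mono (prj ops n fun _ => P) fun p => s.e (r p))

include hb in
/-- the linear form lives in one degree -/
theorem phi_gr (hmid : transcendental W P.X ≤ W.gr P.X P.X.dim) {V : Fin (n + 1) → W.H P.X}
    {d : Fin (n + 1) → ℕ} (hV : ∀ p, V p ∈ W.gr P.X (d p)) {i : ℕ}
    (hi : i + ∑ p, d p ≠ 2 * P.X.dim * (n + 1)) {x : W.H (nest ops n fun _ => P).X}
    (hx : x ∈ W.gr _ i) : phi s.e b (fun p => bil W P.X (V p)) x = 0 := by
  have h1 : (phi s.e b fun p => bil W P.X (V p)) ∘ₗ proj (W.isInternal _) i = 0 := by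
    refine b.ext fun r => ?_
    rw [LinearMap.comp_apply, LinearMap.zero_apply]
    have h2 : b r ∈ W.gr _ (∑ p, sdeg s (r p)) := by
      rw [hb]
      exact mono_gr _ _ _ fun p => e_gr hmid s (r p)
    by_cases h3 : ∑ p, sdeg s (r p) = i
    · rw [h3] at h2
      rw [proj_same _ h2, hb, phi_mono hb]
      obtain ⟨p, hp⟩ : ∃ p, d p + sdeg s (r p) ≠ 2 * P.X.dim := by
        by_contra hcon
        push Not at hcon
        apply hi
        have h4 : ∑ p, (d p + sdeg s (r p)) = ∑ _p : Fin (n + 1), 2 * P.X.dim :=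
          Finset.sum_congr rfl fun p _ => hcon p
        rw [Finset.sum_add_distrib, h3, Finset.sum_const, Finset.card_univ, Fintype.card_fin,
          smul_eq_mul] at h4
        rw [add_comm, h4, mul_comm]
      exact Finset.prod_eq_zero (Finset.mem_univ p) (bil_gr (hV p) (e_gr hmid s (r p)) hp)
    · rw [proj_ne _ h2 h3, map_zero]
  have h2 := LinearMap.congr_fun h1 x
  rwa [LinearMap.comp_apply, proj_same _ hx] at h2

/-- contraction with a homogeneous linear form -/
theorem proj_ctr {A : 𝒱.Obj} {φ : W.H A →ₗ[W.K] W.K} {i₀ : ℕ}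
    (hφ : ∀ i, i ≠ i₀ → ∀ x ∈ W.gr A i, φ x = 0) (m : ℕ) (c : W.H (A.prod Z)) :
    proj (W.isInternal Z) m (ctr φ c) = ctr φ (proj (W.isInternal (A.prod Z)) (m + i₀) c) := by
  refine W.kunneth_induction (p := fun c => proj (W.isInternal Z) m (ctr φ c) =
    ctr φ (proj (W.isInternal (A.prod Z)) (m + i₀) c)) ?_ ?_ c
  · intro a b ha hb
    rw [map_add, map_add, map_add, map_add, ha, hb]
  · intro i l x hx z hz
    rw [ctr_apply, proj_ext hx, map_smul]
    by_cases hi : i = i₀
    · subst hi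
      rw [if_pos (Nat.le_add_left _ _), Nat.add_sub_cancel, ctr_apply]
    · rw [hφ i hi x hx, zero_smul]
      split_ifs
      · rw [ctr_apply, hφ i hi x hx, zero_smul]
      · rw [map_zero]

include hb in
/-- **The degree of the values.** -/
theorem hml_gr (hmid : transcendental W P.X ≤ W.gr P.X P.X.dim)
    {c : W.H ((nest ops n fun _ => P).X.prod Z)} {j : ℕ} (hc : c ∈ W.gr _ (2 * j))
    {d : Fin (n + 1) → ℕ} (hd : ∑ p, d p ≤ 2 * P.X.dim * (n + 1)) :
    (∃ m, 2 * P.X.dim * (n + 1) + m = 2 * j + ∑ p, d p ∧ ∀ V : Fin (n + 1) → W.H P.X,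
      (∀ p, V p ∈ W.gr P.X (d p)) → hml s.e b c V ∈ W.gr Z m) ∨
    ∀ V : Fin (n + 1) → W.H P.X, (∀ p, V p ∈ W.gr P.X (d p)) → hml s.e b c V = 0 := by
  obtain ⟨i₀, hi₀⟩ : ∃ i₀, i₀ + ∑ p, d p = 2 * P.X.dim * (n + 1) :=
    ⟨2 * P.X.dim * (n + 1) - ∑ p, d p, Nat.sub_add_cancel hd⟩
  have hφ : ∀ V : Fin (n + 1) → W.H P.X, (∀ p, V p ∈ W.gr P.X (d p)) → ∀ i, i ≠ i₀ →
      ∀ x ∈ W.gr _ i, phi s.e b (fun p => bil W P.X (V p)) x = 0 := by
    intro V hV i hi x hx
    exact phi_gr hb hmid hV (by omega) hx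
  by_cases h : i₀ ≤ 2 * j
  · refine Or.inl ⟨2 * j - i₀, by omega, fun V hV => ?_⟩
    have h1 := proj_ctr (Z := Z) (hφ V hV) (2 * j - i₀) c
    rw [Nat.sub_add_cancel h, proj_same _ hc, ← hml_eq hb] at h1
    rw [← h1]
    exact proj_mem _ _ _
  · refine Or.inr fun V hV => ?_
    rw [hml_eq hb]
    have h1 : ∀ m, proj (W.isInternal Z) m (ctr (phi s.e b fun p => bil W P.X (V p)) c) = 0 := by
      intro m
      rw [proj_ctr (Z := Z) (hφ V hV) m c, proj_ne _ hc (by omega), map_zero]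
    have h2 : ∀ y : W.H Z, (∀ m, proj (W.isInternal Z) m y = 0) → y = 0 := by
      intro y hy
      have h3 := sum_proj (W.isInternal Z) (N := 2 * Z.dim + 1)
        (fun i hi => W.gr_eq_bot Z i (by omega))
      have h4 := LinearMap.congr_fun h3 y
      rw [LinearMap.sum_apply, Module.End.one_apply, Finset.sum_eq_zero fun i _ => hy i] at h4
      exact h4.symm
    exact h2 _ h1

end

end Pool.Agent.Y126.MU
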