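import Mathlib
import Pool.Agent.Y126.MU.Mem

/-!
# A maximal unipotent element and a Frobenius element
-/

set_option linter.unusedSectionVars false

namespace Pool.Agent.Y126.MU

open Module Finset Function Pool.Agent.Y126.JB Pool.Agent.TH125.Gal Pool.Agent.TH118.SG
open Pool.Agent.H204R3.SP

variable {K : Type} [Field K] [CharZero K] [IsAlgClosed K] {T : Type} [AddCommGroup T]
  [Module K T] [FiniteDimensional K T] {E : Type} [AddCommGroup E] [Module K E]
  [FiniteDimensional K E] {S : Type} [Fintype S] [DecidableEq S] {G : Type} [Group G]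
  {B : T →ₗ[K] T →ₗ[K] K} {ρ : G →* (T →ₗ[K] T)} {σ : G →* (E →ₗ[K] E)} {μ : G →* K}

/-- a character as a representation -/
def chrep (μ : G →* K) : G →* (K →ₗ[K] K) where
  toFun g := μ g • LinearMap.id
  map_one' := by
    rw [map_one, one_smul]
    rfl
  map_mul' g g' := by
    refine LinearMap.ext fun x => ?_
    change μ (g * g') * x = μ g * (μ g' * x)
    rw [map_mul, mul_assoc]

theorem skew_of_kill {X : End K T} (h : Kill X (bm B)) : Skew B X := by
  intro x y
  have h2 := h ![x, y]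
  rw [Fin.sum_univ_two] at h2
  simpa [bm] using h2

theorem eqv_bm (hB : ∀ g x y, B (ρ g x) (ρ g y) = μ g * B x y) :
    Eqv ρ (chrep μ) (bm B) :=
  ⟨⊤, inferInstance, fun g _ v => hB g (v 0) (v 1)⟩

/-- **The whole symplectic Lie algebra.** -/
theorem full_mu {D : ℕ} {g φ : G} (hdim : finrank K T = D + 1) {k : ℕ}
    (hgk : (ρ g - 1) ^ k = 0) {v₀ : T} (hv : ((ρ g - 1) ^ D) v₀ ≠ 0) {q : ℕ} (hq : 2 ≤ q)
    (hφ : ρ φ * ρ g = (ρ g) ^ q * ρ φ) (halt : ∀ x, B x x = 0)
    (hnd : ∀ x, (∀ y, B x y = 0) → x = 0) (hB : ∀ g x y, B (ρ g x) (ρ g y) = μ g * B x y)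
    (hμ : μ g = 1) (hσ : σ g = 1) {j : K →+* ℂ}
    (hpure : ∀ x : E, x ≠ 0 → ∀ a : K, σ φ x = a • x → ‖j a‖ ^ 2 = ‖j (μ φ)‖ ^ Fintype.card S)
    (hγ : D = 1 ∨ ∃ γ : G, ∀ a c : K, (ρ γ).charpoly ≠
      ∏ i ∈ range (D + 1), (Polynomial.X - Polynomial.C (a * c ^ i))) (u v : T) :
    SS B u v ∈ LL S B ρ σ := by
  have hinv : ∀ (γ : G), ρ γ * ρ γ⁻¹ = 1 ∧ ρ γ⁻¹ * ρ γ = 1 := by
    intro γ
    constructor
    · rw [← map_mul, mul_inv_cancel, map_one]
    · rw [← map_mul, inv_mul_cancel, map_one]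
  have hinj : ∀ γ : G, Injective (ρ γ) := by
    intro γ
    rw [injective_iff_map_eq_zero]
    intro x hx
    have h1 := LinearMap.congr_fun (hinv γ).2 x
    rw [Module.End.mul_apply, hx, map_zero] at h1
    exact h1.symm
  -- the logarithm
  set e := lg K (ρ g - 1) k with he
  have heL : e ∈ LL S B ρ σ := lg_mem hgk (fun x y => by rw [hB, hμ, one_mul]) hσ
  obtain ⟨V, hV, hVc, hlg⟩ := lg_eq (K := K) (ρ g - 1) hgk
  have hnil : IsNilpotent e := by
    rw [he, hlg]
    exact hVc.isNilpotent_mul_right ⟨k, hgk⟩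
  obtain ⟨u₀, hu₀⟩ : ∃ u₀, (e ^ D) u₀ ≠ 0 := by
    have h1 : Function.Surjective (V ^ D) :=
      ((Module.End.isUnit_iff _).1 (hV.pow D)).2
    obtain ⟨u₀, hu₀⟩ := h1 v₀
    refine ⟨u₀, ?_⟩
    rw [he, hlg, hVc.mul_pow, Module.End.mul_apply, hu₀]
    exact hv
  have hfr : ρ φ * e = (q : K) • (e * ρ φ) := lg_frob hgk hφ
  have hqi : ∀ i : ℕ, i ≠ 0 → (q : K) ^ i ≠ 1 := by
    intro i hi h1
    have h2 : q ^ i = 1 := by exact_mod_cast h1
    have h3 := Nat.one_lt_pow hi (show 1 < q by omega)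
    omega
  obtain ⟨u₁, lam, hlam, hu₁, hu₁D⟩ := exists_gen hnil hdim hu₀ hfr (hinj φ) hqi
  obtain ⟨h, f, hp⟩ := exists_prin hnil hdim hu₁D
  have hw : ∀ i, ρ φ ((e ^ i) u₁) = (lam * (q : K) ^ i) • (e ^ i) u₁ := by
    intro i
    induction i with
    | zero => simpa using hu₁
    | succ i ih =>
      rw [pow_succ', Module.End.mul_apply]
      have h1 := LinearMap.congr_fun hfr ((e ^ i) u₁)
      rw [Module.End.mul_apply, LinearMap.smul_apply, Module.End.mul_apply, ih, map_smul] at h1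
      rw [h1, smul_smul]
      congr 1
      ring
  have hesk : ∀ u v, B (e u) v + B u (e v) = 0 := heL.1
  -- the pairing
  have hpair : B u₁ ((e ^ D) u₁) ≠ 0 := by
    intro h0
    apply hu₁D
    refine hnd _ fun y => ?_
    have h1 : B ((e ^ D) u₁) = 0 := by
      refine hp.ext fun i _ => ?_
      rw [om_pow hesk, LinearMap.zero_apply]
      by_cases hi : i = 0
      · rw [hi, pow_zero, Module.End.one_apply, h0, mul_zero]
      · have h2 : (e ^ D) ((e ^ i) u₁) = 0 := by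
          rw [← Module.End.mul_apply, ← pow_add]
          exact hp.zero (i := D + i) (by omega)
        rw [h2, map_zero, mul_zero]
    rw [h1, LinearMap.zero_apply]
  have hμφ : lam ^ 2 * (q : K) ^ D = μ φ := by
    have h1 := hB φ u₁ ((e ^ D) u₁)
    rw [hw D, hu₁, map_smul, map_smul, LinearMap.smul_apply, smul_eq_mul, smul_eq_mul] at h1
    have h2 : (lam ^ 2 * (q : K) ^ D - μ φ) * B u₁ ((e ^ D) u₁) = 0 := by
      linear_combination h1
    exact sub_eq_zero.1 ((mul_eq_zero.1 h2).resolve_right hpair)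
  -- the other elements of the triple
  have hhB : Kill h (bm B) := by
    refine h_kill (σ := chrep μ) hp hdim hlam hq hw hμφ (j := j) ?_ (eqv_bm hB)
    intro x hx a ha
    have h1 : μ φ * x = a * x := ha
    rw [mul_right_cancel₀ hx h1, Fintype.card_fin]
  have hhsk : Skew B h := skew_of_kill hhB
  have hhL : h ∈ LL S B ρ σ :=
    ⟨hhsk, fun H hH => h_kill hp hdim hlam hq hw hμφ hpure hH⟩
  have heB : Kill e (bm B) := by
    refine lg_kill (bm B) hgk (Set.infinite_univ.mono fun m _ v => ?_)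
    change B ((ρ g ^ m) (v 0)) ((ρ g ^ m) (v 1)) = B (v 0) (v 1)
    rw [← map_pow, hB, map_pow, hμ, one_pow, one_mul]
  have hfB : Kill f (bm B) := kill_f hp.ef hp.he hp.hf heB hhB
  have hfL : f ∈ LL S B ρ σ :=
    ⟨skew_of_kill hfB, fun H hH => kill_f hp.ef hp.he hp.hf (heL.2 H hH) (hhL.2 H hH)⟩
  have hD : 0 < D := by
    rcases Nat.eq_zero_or_pos D with h0 | h0
    · rw [h0, pow_zero, Module.End.one_apply, halt] at hpair
      exact absurd rfl hpair
    · exact h0
  have hbr : ∀ Y ∈ LL S B ρ σ, ∀ Z ∈ LL S B ρ σ, Y * Z - Z * Y ∈ LL S B ρ σ :=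
    fun Y hY Z hZ => LL_bracket hY hZ
  have hsk : ∀ Y ∈ LL S B ρ σ, ∀ u v, B (Y u) v + B u (Y v) = 0 := fun Y hY => hY.1
  have htop : e ^ D ∈ LL S B ρ σ := by
    by_cases hle : LL S B ρ σ ≤ Submodule.span K {e, h, f}
    · rcases hγ with hD1 | ⟨γ, hγ⟩
      · rw [hD1, pow_one]
        exact heL
      · exfalso
        have hin : Submodule.span K {e, h, f} ≤ LL S B ρ σ := by
          refine Submodule.span_le.2 ?_
          rintro X (rfl | rfl | rfl)
          · exact heL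
          · exact hhL
          · exact hfL
        obtain ⟨x, y, c, v', h1, h2, h3⟩ := hp.exists_nilp hD (g := ρ γ) (g' := ρ γ⁻¹)
          (hinv γ).2 (fun X hX => hle (LL_conj (μ := μ) hB (hin hX) γ))
        obtain ⟨a, ha⟩ := charpoly_geom h1 h2 hdim h3
        exact hγ a c ha
    · obtain ⟨k', hk2, hkD, hkL⟩ := hp.exists_pow hesk hhsk hnd hbr hsk hD heL hhL hle
      exact hp.top_of_pow hesk hhsk hnd halt hbr hsk hfL hk2 hkD hkL
  exact hp.full_of_top hesk hhsk (skew_of_kill hfB) hnd halt hbr hfL htop hsk u v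

end Pool.Agent.Y126.MU
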