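import Pool.Agent.Y126.MU.Step
import Pool.Agent.Y126.MU.Deg
import Pool.Agent.Y126.MU.Defs
import Pool.Agent.Y126.MU.Full
import Pool.Agent.TH118.SG.Family

/-!
# From purity to the classes killed by the whole Lie algebra
-/

open CategoryTheory AlgebraicGeometry Finset

set_option linter.unusedSectionVars false

universe u

namespace Pool.Agent.Y126.MU

open Pool.Agent.TH125.Gal Pool.Agent.TH118.SG
open Pool.Agent.H914 Pool.Agent.H914.VarClass Pool.Agent.H914.VarClass.Obj
  Pool.Agent.H914.WeilCohomology Pool.Agent.H281R3.HT Pool.Agent.W552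

variable {k : Type u} [Field k] {𝒱 : VarClass k} {ops : CycleOps 𝒱}
  {W : WeilCohomology.{u, 0} ops} {P : Polarized 𝒱} {n : ℕ} {Z : 𝒱.Obj}
  {Γ : Type} [Group Γ] {χ : Γ →* W.Kˣ} {ρ : Γ →* (W.H P.X ≃ₐ[W.K] W.H P.X)}
  {τ : Γ →* (W.H Z ≃ₐ[W.K] W.H Z)}
  {υ : Γ →* (W.H ((nest ops n fun _ => P).X.prod Z) ≃ₐ[W.K]
    W.H ((nest ops n fun _ => P).X.prod Z))}

/-- the twisted action on one degree -/
noncomputable def sres (lam : Γ →* W.Kˣ) (hτ : ∀ g m, ∀ a ∈ W.gr Z m, τ g a ∈ W.gr Z m)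
    (m : ℕ) : Γ →* (W.gr Z m →ₗ[W.K] W.gr Z m) where
  toFun g := (twist lam τ g).restrict fun a ha => Submodule.smul_mem _ _ (hτ g m a ha)
  map_one' := by
    apply LinearMap.ext
    intro t
    apply Subtype.ext
    change twist lam τ 1 (t : W.H Z) = t
    rw [map_one]
    rfl
  map_mul' g g' := by
    apply LinearMap.ext
    intro t
    apply Subtype.ext
    change twist lam τ (g * g') (t : W.H Z) = twist lam τ g (twist lam τ g' (t : W.H Z))
    rw [map_mul]
    rfl

theorem sres_apply (lam : Γ →* W.Kˣ) (hτ : ∀ g m, ∀ a ∈ W.gr Z m, τ g a ∈ W.gr Z m)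
    (m : ℕ) (g : Γ) (x : W.gr Z m) :
    (sres lam hτ m g x : W.H Z) = (lam g : W.K) • τ g (x : W.H Z) := rfl

/-- The whole Lie algebra kills all equivariant multilinear maps to pure representations. -/
def FullPure (W : WeilCohomology.{u, 0} ops) (χ : Γ →* W.Kˣ) (ι : W.K →+* ℂ) {P : Polarized 𝒱}
    {ρ : Γ →* (W.H P.X ≃ₐ[W.K] W.H P.X)} (hG : IsGalois W χ P.X ρ) (g φ : Γ) : Prop :=
  ∀ (S : Type) [Fintype S] [DecidableEq S] (E : Type) [AddCommGroup E] [Module W.K E]
    [FiniteDimensional W.K E] (σ : Γ →* (E →ₗ[W.K] E)), σ g = 1 →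
    (∀ x : E, x ≠ 0 → ∀ a : W.K, σ φ x = a • x →
      ‖ι a‖ ^ 2 = ‖ι (mult χ P.X.dim φ)‖ ^ Fintype.card S) →
    ∀ x y, RR (rform W P.X (transcendental W P.X)) ((-1) ^ P.X.dim) x y ∈
      LL S (rform W P.X (transcendental W P.X)) (rhoT hG) σ

theorem killAll (hmid : transcendental W P.X ≤ W.gr P.X P.X.dim)
    (hG : IsGalois W χ P.X ρ) (hP : IsPowAct W P n Z ρ τ υ)
    (hτ : ∀ g m, ∀ a ∈ W.gr Z m, τ g a ∈ W.gr Z m) {g φ : Γ} (hχg : χ g = 1) (hτg : τ g = 1)
    {ι : W.K →+* ℂ} (hpure : PureAct ι (χ φ : W.K) (W.gr Z) (τ φ))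
    (hfull : FullPure W χ ι hG g φ) : KillAll W χ P n Z υ := by
  intro s b hb c j hcj Δ hΔ hc c₀ x y
  have heqv := hS_eqv hb hG hP hΔ hc c₀
  set d : Fin (n + 1) → ℕ := fun p => if c₀ p = none then P.X.dim else 2 * fixw s c₀ p with hd
  have hfw : ∀ p, fixw s c₀ p ≤ P.X.dim := by
    intro p
    rw [fixw]
    cases c₀ p with
    | none => exact Nat.zero_le _
    | some i => exact Nat.sub_le _ _
  have hdle : ∑ p, d p ≤ 2 * P.X.dim * (n + 1) := by
    have h1 : ∑ p, d p ≤ ∑ _p : Fin (n + 1), 2 * P.X.dim := by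
      refine Finset.sum_le_sum fun p _ => ?_
      have h2 := hfw p
      rw [hd]
      beta_reduce
      split_ifs
      · omega
      · omega
    rw [Finset.sum_const, Finset.card_univ, Fintype.card_fin, smul_eq_mul] at h1
    rwa [mul_comm]
  have hV : ∀ (v : Free c₀ → transcendental W P.X) (p : Fin (n + 1)),
      (if h : c₀ p = none then (v ⟨p, h⟩ : W.H P.X) else fixv s c₀ ⟨p, h⟩) ∈ W.gr P.X (d p) := by
    intro v p
    by_cases h : c₀ p = none
    · rw [dif_pos h, hd]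
      beta_reduce
      rw [if_pos h]
      exact hmid (v ⟨p, h⟩).2
    · obtain ⟨i, hi⟩ := Option.ne_none_iff_exists'.1 h
      rw [dif_neg h, hd]
      beta_reduce
      rw [if_neg h, fixv_some hi, fixw, hi]
      exact uC_gr hmid s i
  rcases hml_gr (Z := Z) hb hmid hcj hdle with ⟨m, hm, hgr⟩ | h0
  · -- values in one degree
    have hval : ∀ v, hS s b c c₀ v ∈ W.gr Z m := fun v => hgr _ (hV v)
    set h' := (hS s b c c₀).codRestrict (W.gr Z m) hval with hh'
    have heqv' : Eqv (rhoT hG) (sres (lamb χ s c₀ j) hτ m) h' := by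
      obtain ⟨Δ', hΔ', h1⟩ := heqv
      exact ⟨Δ', hΔ', fun g hg v => Subtype.ext (h1 g hg v)⟩
    have hkill := (hfull (Free c₀) (W.gr Z m) (sres (lamb χ s c₀ j) hτ m) ?_ ?_ x y).2 h' heqv'
    · intro v
      have h1 := congrArg Subtype.val (hkill v)
      rw [Submodule.coe_sum] at h1
      exact h1
    · apply LinearMap.ext
      intro z
      apply Subtype.ext
      rw [sres_apply, lamb_apply, hχg, hτg]
      simp
    · intro z hz a ha
      have hz0 : (z : W.H Z) ≠ 0 := fun h => hz (Subtype.ext h)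
      have h1 : (lamb χ s c₀ j φ : W.K) • τ φ (z : W.H Z) = a • (z : W.H Z) :=
        congrArg Subtype.val ha
      have hl0 : (lamb χ s c₀ j φ : W.K) ≠ 0 := Units.ne_zero _
      have h2 : τ φ (z : W.H Z) = ((lamb χ s c₀ j φ : W.K)⁻¹ * a) • (z : W.H Z) := by
        rw [mul_smul, ← h1, smul_smul, inv_mul_cancel₀ hl0, one_smul]
      have h3 := hpure m z z.2 hz0 _ h2
      have h4 : (lamb χ s c₀ j φ : W.K) * ((χ φ : W.K) ^ j * (χ φ : W.K) ^ (∑ p, fixw s c₀ p)) =
          (χ φ : W.K) ^ (P.X.dim * (n + 1)) := by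
        have hχ : (χ φ : W.K) ≠ 0 := Units.ne_zero _
        have h5 : (lamb χ s c₀ j φ : W.K) = (∏ p, ((χ φ : W.K) ^ fixw s c₀ p)⁻¹) *
            ((χ φ : W.K) ^ j)⁻¹ * ((χ φ : W.K) ^ P.X.dim) ^ (n + 1) := by
          rw [lamb_apply]
          push_cast
          rfl
        rw [h5, Finset.prod_inv_distrib, Finset.prod_pow_eq_pow_sum, ← pow_mul]
        field_simp
      -- norms
      set C := ‖ι (χ φ : W.K)‖ with hC
      have hC0 : C ≠ 0 := by
        rw [hC, norm_ne_zero_iff]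
        exact (map_ne_zero ι).2 (Units.ne_zero _)
      have h5 : ‖ι (lamb χ s c₀ j φ : W.K)‖ * (C ^ j * C ^ (∑ p, fixw s c₀ p)) =
          C ^ (P.X.dim * (n + 1)) := by
        have h6 := congrArg (fun x => ‖ι x‖) h4
        beta_reduce at h6
        rwa [map_mul, map_mul, map_pow, map_pow, map_pow, norm_mul, norm_mul, norm_pow, norm_pow,
          norm_pow] at h6
      have hL0 : ‖ι (lamb χ s c₀ j φ : W.K)‖ ≠ 0 := by
        rw [norm_ne_zero_iff]
        exact (map_ne_zero ι).2 hl0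
      set L := ‖ι (lamb χ s c₀ j φ : W.K)‖ with hL
      rw [map_mul, map_inv₀, norm_mul, norm_inv, ← hL] at h3
      have h6 : ‖ι a‖ ^ 2 = L ^ 2 * C ^ m := by
        rw [← h3]
        field_simp
      have h7 : ‖ι (mult χ P.X.dim φ)‖ = C ^ P.X.dim := by
        rw [mult_apply, map_pow, norm_pow]
      rw [h6, h7]
      have h8 : ∑ p, d p = P.X.dim * Fintype.card (Free c₀) + 2 * ∑ p, fixw s c₀ p := by
        have h9 : ∀ p, d p = (if c₀ p = none then P.X.dim else 0) + 2 * fixw s c₀ p := by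
          intro p
          rw [hd]
          beta_reduce
          by_cases h : c₀ p = none
          · rw [if_pos h, if_pos h, fixw, h]
            simp
          · rw [if_neg h, if_neg h, zero_add]
        rw [Finset.sum_congr rfl fun p _ => h9 p, Finset.sum_add_distrib, ← Finset.mul_sum]
        congr 1
        rw [← Finset.sum_filter, Finset.sum_const, smul_eq_mul, mul_comm]
        congr 1
        exact (Fintype.card_subtype _).symm
      have h9 : L ^ 2 * C ^ m * (C ^ j * C ^ (∑ p, fixw s c₀ p)) ^ 2 =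
          (C ^ P.X.dim) ^ Fintype.card (Free c₀) * (C ^ j * C ^ (∑ p, fixw s c₀ p)) ^ 2 := by
        have h10 : L ^ 2 * C ^ m * (C ^ j * C ^ (∑ p, fixw s c₀ p)) ^ 2 =
            (L * (C ^ j * C ^ (∑ p, fixw s c₀ p))) ^ 2 * C ^ m := by ring
        rw [h10, h5, ← pow_mul, ← pow_mul, ← pow_add, ← pow_add, ← pow_mul, ← pow_add]
        congr 1
        rw [h8] at hm
        have h11 : 2 * P.X.dim * (n + 1) = P.X.dim * (n + 1) * 2 := by ring
        rw [← h11]
        omega
      exact mul_right_cancel₀ (pow_ne_zero _ (mul_ne_zero (pow_ne_zero _ hC0)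
        (pow_ne_zero _ hC0))) h9
  · intro v
    refine Finset.sum_eq_zero fun p _ => ?_
    exact h0 _ (hV _)

end Pool.Agent.Y126.MU
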