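import Pool.Agent.Y126.MU.Pure
import Pool.Agent.Y126.MU.KillAll
import Pool.Agent.Y126.JB.Family

/-!
# Families of varieties with a maximal unipotent place
-/

open CategoryTheory AlgebraicGeometry Finset

set_option linter.unusedSectionVars false

universe u

namespace Pool.Agent.Y126.MU

open Pool.Agent.TH125.Gal Pool.Agent.TH118.SG Pool.Agent.Y126.JB
open Pool.Agent.H914 Pool.Agent.H914.VarClass Pool.Agent.H914.VarClass.Obj
  Pool.Agent.H914.WeilCohomology Pool.Agent.H281R3.HT Pool.Agent.W552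

/-- the multiplicities of the roots of a product of linear factors -/
theorem rootMult {K : Type*} [Field K] (N : ℕ) (r : ℕ → K) (y : K) :
    (∏ i ∈ range N, (Polynomial.X - Polynomial.C (r i))).rootMultiplicity y =
      Nat.card {i : ℕ // i < N ∧ r i = y} := by
  classical
  have h1 : (∏ i ∈ range N, (Polynomial.X - Polynomial.C (r i))) =
      (((range N).val.map r).map fun a => Polynomial.X - Polynomial.C a).prod := by
    rw [Multiset.map_map]
    rfl
  rw [← Polynomial.count_roots, h1, Polynomial.roots_multiset_prod_X_sub_C, Multiset.count_map]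
  have h2 : Nat.card {i : ℕ // i < N ∧ r i = y} = ((range N).filter fun i => y = r i).card :=
    Nat.subtype_card _ fun i => by
      rw [mem_filter, mem_range]
      exact and_congr_right fun _ => eq_comm
  rw [h2]
  rfl

theorem RR_neg {K T : Type*} [Field K] [CharZero K] [AddCommGroup T] [Module K T] (B : T →ₗ[K] T →ₗ[K] K)
    (x y : T) : RR B (-1) x y = Pool.Agent.H204R3.SP.SS B x y := by
  refine LinearMap.ext fun z => ?_
  rw [RR, Pool.Agent.H204R3.SP.SS_apply, LinearMap.sub_apply, LinearMap.smul_apply, rk_apply,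
    rk_apply]
  push_cast
  module

variable {k : Type u} [Field k] {𝒱 : VarClass k} {ops : CycleOps 𝒱}
  {W : WeilCohomology.{u, 0} ops} {Γ : Type} [Group Γ] {χ : Γ →* W.Kˣ} {ι : W.K →+* ℂ}

section

variable {P : Polarized 𝒱} {ρ : Γ →* (W.H P.X ≃ₐ[W.K] W.H P.X)}

/-- generalized eigenspaces on the transcendental part -/
theorem finrank_gE (hG : IsGalois W χ P.X ρ) (g : Γ) (y : W.K) :
    Module.finrank W.K (Module.End.maxGenEigenspace (rhoT hG g) y) =
      Module.finrank W.K ↥(transcendental W P.X ⊓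
        Module.End.maxGenEigenspace ((ρ g).toLinearMap : Module.End W.K (W.H P.X)) y) := by
  have hpow : ∀ (m : ℕ) (t : transcendental W P.X),
      ((((rhoT hG g - y • 1) ^ m) t : transcendental W P.X) : W.H P.X) =
        ((((ρ g).toLinearMap - y • 1 : Module.End W.K (W.H P.X)) ^ m) t) := by
    intro m
    induction m with
    | zero => intro t; rfl
    | succ m ih =>
      intro t
      rw [pow_succ, pow_succ, Module.End.mul_apply, Module.End.mul_apply, ih]
      rfl
  have h1 : (Module.End.maxGenEigenspace (rhoT hG g) y).map (transcendental W P.X).subtype =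
      transcendental W P.X ⊓
        Module.End.maxGenEigenspace ((ρ g).toLinearMap : Module.End W.K (W.H P.X)) y := by
    ext t
    constructor
    · rintro ⟨x, hx, rfl⟩
      obtain ⟨m, hm⟩ := mem_gE.1 hx
      refine ⟨x.2, mem_gE.2 ⟨m, ?_⟩⟩
      have h2 := hpow m x
      rw [hm] at h2
      exact h2.symm
    · rintro ⟨ht, h2⟩
      obtain ⟨m, hm⟩ := mem_gE.1 h2
      refine ⟨⟨t, ht⟩, mem_gE.2 ⟨m, Subtype.ext ?_⟩, rfl⟩
      rw [hpow]
      exact hm
  rw [← h1]
  exact (Submodule.finrank_map_subtype_eq _ _).symm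

/-- geometric characteristic polynomials -/
theorem geometric_of (hG : IsGalois W χ P.X ρ) {g : Γ} {D : ℕ}
    (hdim : Module.finrank W.K (transcendental W P.X) = D + 1) {a c : W.K}
    (h : LinearMap.charpoly (rhoT hG g) =
      ∏ i ∈ range (D + 1), (Polynomial.X - Polynomial.C (a * c ^ i))) :
    GeometricAct (transcendental W P.X) ρ g := by
  refine ⟨a, c, fun y => ?_⟩
  rw [← finrank_gE hG g y, LinearMap.finrank_maxGenEigenspace_eq, h, rootMult, hdim]

/-- **The Lie algebra of a variety with a maximal unipotent place.** -/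
theorem fullPure [IsAlgClosed W.K] (hDX : HomEqNum W P.X)
    (hmid : transcendental W P.X ≤ W.gr P.X P.X.dim) (hG : IsGalois W χ P.X ρ)
    (hodd : Odd P.X.dim) {g φ : Γ} (hχ : χ g = 1) (hg : MaxUnipotent (transcendental W P.X) ρ g)
    {q : ℕ} (hq : 2 ≤ q)
    (hφ : ∀ t ∈ transcendental W P.X, ρ φ (ρ g t) = ρ (g ^ q) (ρ φ t))
    (hγ : Module.finrank W.K (transcendental W P.X) = 2 ∨
      ∃ γ : Γ, ¬ GeometricAct (transcendental W P.X) ρ γ) : FullPure W χ ι hG g φ := by
  intro S _ _ E _ _ _ σ hσ hpure x y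
  obtain ⟨hg1, t, ht, hg2⟩ := hg
  have hpos : 0 < Module.finrank W.K (transcendental W P.X) := by
    refine Module.finrank_pos_iff_exists_ne_zero.2 ⟨⟨t, ht⟩, fun h0 => ?_⟩
    have h1 : t = 0 := congrArg Subtype.val h0
    rw [h1, map_zero] at hg2
    exact hg2 rfl
  obtain ⟨D, hdim⟩ : ∃ D, Module.finrank W.K (transcendental W P.X) = D + 1 :=
    ⟨_, (Nat.succ_pred_eq_of_pos hpos).symm⟩
  have hB : ∀ g a b, rform W P.X (transcendental W P.X) (rhoT hG g a) (rhoT hG g b) =
      mult χ P.X.dim g * rform W P.X (transcendental W P.X) a b := by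
    intro g a b
    rw [mult_apply]
    exact bil_act hG g a b
  have hRR : RR (rform W P.X (transcendental W P.X)) ((-1) ^ P.X.dim) x y =
      Pool.Agent.H204R3.SP.SS (rform W P.X (transcendental W P.X)) x y := by
    rw [hodd.neg_one_pow, RR_neg]
  rw [hRR]
  refine full_mu (μ := mult χ P.X.dim) (g := g) (φ := φ) hdim (k := D + 1) ?_
    (v₀ := ⟨t, ht⟩) ?_ hq ?_ (form_alt hmid hodd) (trans_nondeg hDX) hB ?_ hσ (j := ι) hpure ?_ x y
  · refine LinearMap.ext fun z => Subtype.ext ?_
    rw [pow_val, ← hdim]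
    exact hg1 z z.2
  · intro h0
    apply hg2
    have h1 := congrArg Subtype.val h0
    rw [pow_val] at h1
    rw [hdim, Nat.add_sub_cancel]
    exact h1
  · refine LinearMap.ext fun z => Subtype.ext ?_
    rw [← map_pow]
    exact hφ z z.2
  · rw [mult_apply, hχ, Units.val_one, one_pow]
  · rcases hγ with h2 | ⟨γ, hγ⟩
    · exact Or.inl (by omega)
    · exact Or.inr ⟨γ, fun a c h => hγ (geometric_of hG hdim h)⟩

end

theorem graded_of {X : GVar W Γ} (hG : IsGalois W χ X.X X.act) (g : Γ) :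
    GradedAct W X.X (X.act g) := fun m a ha => hG.gr_mem g m a ha

theorem tower_graded {I : Type} {X : I → GVar W Γ} {Z : GVar W Γ} {S : Set I} {Y : GVar W Γ}
    (h : GTower X Z S Y) {g : Γ} (hX : ∀ j, GradedAct W (X j).X ((X j).act g))
    (hZ : GradedAct W Z.X (Z.act g)) : GradedAct W Y.X (Y.act g) := by
  induction h with
  | base => exact hZ
  | step i n _ _ _ hP ih =>
    obtain ⟨υ, h1, h2⟩ := hP
    exact graded_prod (isPowAct h1 h2) (hX i) ih

theorem tower_pure [IsAlgClosed W.K] {I : Type} {X : I → GVar W Γ} {Z : GVar W Γ} {S : Set I}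
    {Y : GVar W Γ} (h : GTower X Z S Y) {g : Γ} {x : W.K}
    (hX : ∀ j, GradedAct W (X j).X ((X j).act g)) (hZ : GradedAct W Z.X (Z.act g))
    (hXp : ∀ j ∈ S, PureAct ι x (W.gr (X j).X) ((X j).act g))
    (hZp : PureAct ι x (W.gr Z.X) (Z.act g)) : PureAct ι x (W.gr Y.X) (Y.act g) := by
  induction h with
  | base => exact hZp
  | step i n hT _ _ hP ih =>
    obtain ⟨υ, h1, h2⟩ := hP
    exact pure_prod (isPowAct h1 h2) (hX i) (tower_graded hT hX hZ)
      (hXp i (Set.mem_insert _ _)) (ih fun j hj => hXp j (Set.mem_insert_of_mem _ hj))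

/-- **The Tate conjecture for towers.** -/
theorem tate_maximal [IsAlgClosed W.K] {I : Type} {X : I → GVar W Γ} {Z : GVar W Γ}
    (h : MaximalFamily χ ι X Z) {S : Set I} {Y : GVar W Γ} (hY : GTower X Z S Y) :
    TateConjecture χ Y ↔ TateConjecture χ Z := by
  have hgr : ∀ g j, GradedAct W (X j).X ((X j).act g) := fun g j =>
    graded_of (isGalois (h.galois j)) g
  have hgZ : ∀ g, GradedAct W Z.X (Z.act g) := fun g m a ha => h.graded g m a ha
  induction hY with
  | base => exact Iff.rfl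
  | @step S Y Y' i n hT hi hn hP ih =>
    obtain ⟨g, φ, ⟨hχ, hg, q, hq, hφ⟩, ⟨hZ, hZp⟩, hj⟩ := h.place i
    refine Iff.trans ?_ ih
    obtain ⟨υ, h1, h2⟩ := hP
    have hG := isGalois (h.galois i)
    have hfull : FullPure W χ ι (P := ⟨(X i).X, 0⟩) hG g φ :=
      fullPure (P := ⟨(X i).X, 0⟩) (h.homEqNum i) (h.middle i) hG (h.odd i) hχ hg hq hφ
        (h.nonGeometric i)
    constructor
    · refine tate_conv (P := ⟨(X i).X, 0⟩) (h.homEqNum i) ?_ (isPowAct h1 h2)
      intro h3
      obtain ⟨-, t, -, ht⟩ := hg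
      apply ht
      have h4 : ∀ t : W.H (X i).X, t = 0 := fun t => by rw [← one_mul t, h3, zero_mul]
      exact h4 _
    · refine tate_of_kill (P := ⟨(X i).X, 0⟩) (h.homEqNum i) (h.middle i) hG
        (isPowAct h1 h2) (fun he => absurd (h.odd i) (Nat.not_odd_iff_even.2 he)) ?_
      refine killAll (P := ⟨(X i).X, 0⟩) (g := g) (φ := φ) (h.middle i) hG (isPowAct h1 h2)
        (fun g m a ha => tower_graded hT (hgr g) (hgZ g) m a ha) hχ ?_ ?_ hfull
      · exact trivAct.1 (hT.trivAct (fun j hjS => (hj j fun h' => hi (h' ▸ hjS)).1) hZ)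
      · exact tower_pure hT (hgr φ) (hgZ φ) (fun j hjS => (hj j fun h' => hi (h' ▸ hjS)).2) hZp

end Pool.Agent.Y126.MU
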