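import Pool.Agent.TH118.SG.Step
import Pool.Agent.Y126.MU.Defs
import Pool.Agent.Y126.MU.Dich

/-!
# Purity and gradings of products
-/

open CategoryTheory AlgebraicGeometry Finset

set_option linter.unusedSectionVars false

universe u

namespace Pool.Agent.Y126.MU

open Pool.Agent.TH125.Gal Pool.Agent.Y126.JB
open Pool.Agent.H914 Pool.Agent.H914.VarClass Pool.Agent.H914.VarClass.Obj
  Pool.Agent.H914.WeilCohomology Pool.Agent.H281R3.HT Pool.Agent.W552

variable {k : Type u} [Field k] {𝒱 : VarClass k} {ops : CycleOps 𝒱}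
  {W : WeilCohomology.{u, 0} ops}

/-- Multiplicative properties of the classes of a product. -/
theorem top_of_mul {P : Polarized 𝒱} {n : ℕ} {Z : 𝒱.Obj}
    {M : Submodule W.K (W.H ((nest ops n fun _ => P).X.prod Z))} (h1 : 1 ∈ M)
    (hmul : ∀ a ∈ M, ∀ b ∈ M, a * b ∈ M)
    (hX : ∀ p a, W.map (fst _ Z) (W.map (prj ops n (fun _ => P) p) a) ∈ M)
    (hZ : ∀ z, W.map (snd _ Z) z ∈ M) (c : W.H ((nest ops n fun _ => P).X.prod Z)) : c ∈ M := by
  obtain ⟨b, hb⟩ := exists_monoBasis (ops := ops) P (Module.finBasis W.K (W.H P.X)) n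
  rw [expand b c]
  refine M.sum_mem fun r _ => hmul _ ?_ _ (hZ _)
  rw [hb, mono, map_list_prod, List.map_ofFn, List.ofFn_eq_map]
  generalize List.finRange (n + 1) = L
  induction L with
  | nil => exact h1
  | cons p L ih =>
    rw [List.map_cons, List.prod_cons]
    exact hmul _ (hX _ _) _ ih

section graded

/-- `f` preserves the grading. -/
def GradedAct (W : WeilCohomology.{u, 0} ops) (Y : 𝒱.Obj) (f : W.H Y ≃ₐ[W.K] W.H Y) : Prop :=
  ∀ m, ∀ a ∈ W.gr Y m, f a ∈ W.gr Y m

/-- the classes that are sums of homogeneous classes with homogeneous images -/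
def gsp (W : WeilCohomology.{u, 0} ops) (Y : 𝒱.Obj) (f : W.H Y ≃ₐ[W.K] W.H Y) :
    Submodule W.K (W.H Y) :=
  Submodule.span W.K {a | ∃ m, a ∈ W.gr Y m ∧ f a ∈ W.gr Y m}

theorem gsp_top {Y : 𝒱.Obj} {f : W.H Y ≃ₐ[W.K] W.H Y} (h : GradedAct W Y f) (a : W.H Y) :
    a ∈ gsp W Y f := by
  refine gr_induction (W.isInternal Y) (p := fun a => a ∈ gsp W Y f) ?_ ?_ a
  · intro m a ha
    exact Submodule.subset_span ⟨m, ha, h m a ha⟩
  · intro a b ha hb
    exact Submodule.add_mem _ ha hb

theorem graded_of_gsp {Y : 𝒱.Obj} {f : W.H Y ≃ₐ[W.K] W.H Y} (h : ∀ a, a ∈ gsp W Y f) :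
    GradedAct W Y f := by
  intro m a ha
  have h1 : ∀ z ∈ gsp W Y f, proj (W.isInternal Y) m (f z) = f (proj (W.isInternal Y) m z) := by
    intro z hz
    induction hz using Submodule.span_induction with
    | mem z hz =>
      obtain ⟨l, h2, h3⟩ := hz
      by_cases hl : l = m
      · subst hl
        rw [proj_same _ h2, proj_same _ h3]
      · rw [proj_ne _ h2 hl, proj_ne _ h3 hl, map_zero]
    | zero => rw [map_zero, map_zero, map_zero]
    | add x y _ _ hx hy => rw [map_add, map_add, map_add, map_add, hx, hy]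
    | smul q x _ hx => rw [map_smul, map_smul, map_smul, map_smul, hx]
  have h2 := h1 a (h a)
  rw [proj_same _ ha] at h2
  rw [← h2]
  exact proj_mem _ _ _

theorem gsp_mul {Y : 𝒱.Obj} {f : W.H Y ≃ₐ[W.K] W.H Y} {a b : W.H Y} (ha : a ∈ gsp W Y f)
    (hb : b ∈ gsp W Y f) : a * b ∈ gsp W Y f := by
  induction ha using Submodule.span_induction with
  | mem a ha =>
    obtain ⟨l, h2, h3⟩ := ha
    induction hb using Submodule.span_induction with
    | mem b hb =>
      obtain ⟨m, h4, h5⟩ := hb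
      refine Submodule.subset_span ⟨l + m, W.mul_mem h2 h4, ?_⟩
      rw [map_mul]
      exact W.mul_mem h3 h5
    | zero => rw [mul_zero]; exact Submodule.zero_mem _
    | add x y _ _ hx hy => rw [mul_add]; exact Submodule.add_mem _ hx hy
    | smul q x _ hx => rw [mul_smul_comm]; exact Submodule.smul_mem _ _ hx
  | zero => rw [zero_mul]; exact Submodule.zero_mem _
  | add x y _ _ hx hy => rw [add_mul]; exact Submodule.add_mem _ hx hy
  | smul q x _ hx => rw [smul_mul_assoc]; exact Submodule.smul_mem _ _ hx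

theorem gsp_map {Y Y' : 𝒱.Obj} {f : W.H Y ≃ₐ[W.K] W.H Y} {f' : W.H Y' ≃ₐ[W.K] W.H Y'}
    (π : Y' ⟶ Y) (hπ : ∀ a, f' (W.map π a) = W.map π (f a)) {a : W.H Y} (ha : a ∈ gsp W Y f) :
    W.map π a ∈ gsp W Y' f' := by
  induction ha using Submodule.span_induction with
  | mem a ha =>
    obtain ⟨l, h2, h3⟩ := ha
    refine Submodule.subset_span ⟨l, W.map_mem _ h2, ?_⟩
    rw [hπ]
    exact W.map_mem _ h3
  | zero => rw [map_zero]; exact Submodule.zero_mem _
  | add x y _ _ hx hy => rw [map_add]; exact Submodule.add_mem _ hx hy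
  | smul q x _ hx => rw [map_smul]; exact Submodule.smul_mem _ _ hx

theorem graded_prod {Γ : Type} [Group Γ] {P : Polarized 𝒱} {n : ℕ} {Z : 𝒱.Obj}
    {ρ : Γ →* (W.H P.X ≃ₐ[W.K] W.H P.X)} {τ : Γ →* (W.H Z ≃ₐ[W.K] W.H Z)}
    {υ : Γ →* (W.H ((nest ops n fun _ => P).X.prod Z) ≃ₐ[W.K]
      W.H ((nest ops n fun _ => P).X.prod Z))} (hP : IsPowAct W P n Z ρ τ υ) {g : Γ}
    (hρ : GradedAct W P.X (ρ g)) (hτ : GradedAct W Z (τ g)) : GradedAct W _ (υ g) := by
  refine graded_of_gsp (top_of_mul ?_ (fun a ha b hb => gsp_mul ha hb) (fun p a => ?_)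
    fun z => gsp_map _ (hP g).2 (gsp_top hτ z))
  · refine Submodule.subset_span ⟨0, W.one_mem _, ?_⟩
    rw [map_one]
    exact W.one_mem _
  · have h1 := gsp_map (f' := υ g) (fst _ Z ≫ prj ops n (fun _ => P) p) (fun a => by
      rw [W.map_comp, W.map_comp]
      exact (hP g).1 p a) (gsp_top hρ a)
    rwa [W.map_comp] at h1

end graded

section pure

/-- products of generalized eigenvectors -/
theorem gE_prod {K A : Type*} [Field K] [CharZero K] [Ring A] [Algebra K A]
    [FiniteDimensional K A] (f : A ≃ₐ[K] A) {a b : A} {y y' : K}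
    (ha : a ∈ gE (f.toLinearMap : Module.End K A) y)
    (hb : b ∈ gE (f.toLinearMap : Module.End K A) y') :
    a * b ∈ gE (f.toLinearMap : Module.End K A) (y * y') := by
  revert b
  refine gE_ind (h := (f.toLinearMap : Module.End K A)) (a := y)
    (p := fun a : A => ∀ {b : A}, b ∈ gE (f.toLinearMap : Module.End K A) y' →
      a * b ∈ gE (f.toLinearMap : Module.End K A) (y * y')) ?_ ?_ ha
  · intro b _
    rw [zero_mul]
    exact Submodule.zero_mem _
  · intro a _ ha' b hb
    refine gE_ind (h := (f.toLinearMap : Module.End K A)) (a := y')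
      (p := fun b : A => a * b ∈ gE (f.toLinearMap : Module.End K A) (y * y')) ?_ ?_ hb
    · rw [mul_zero]
      exact Submodule.zero_mem _
    · intro b hb hb'
      refine gE_of ?_
      have hfb : f b ∈ gE (f.toLinearMap : Module.End K A) y' :=
        Module.End.mapsTo_maxGenEigenspace_of_comm (Commute.refl _) y' hb
      have h1 := Submodule.add_mem _ (ha' hfb) (Submodule.smul_mem _ y hb')
      have h2 : (f.toLinearMap : Module.End K A) (a * b) - (y * y') • (a * b) =
          ((f.toLinearMap : Module.End K A) a - y • a) * f b +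
            y • (a * ((f.toLinearMap : Module.End K A) b - y' • b)) := by
        rw [AlgEquiv.toLinearMap_apply, AlgEquiv.toLinearMap_apply, AlgEquiv.toLinearMap_apply,
          map_mul, sub_mul, mul_sub, smul_mul_assoc, mul_smul_comm, smul_sub, smul_smul]
        abel
      rw [h2]
      exact h1

variable {ι : W.K →+* ℂ} {x : W.K}

/-- the classes that are sums of homogeneous generalized eigenvectors of the right weight -/
def wsp (W : WeilCohomology.{u, 0} ops) (ι : W.K →+* ℂ) (x : W.K) (Y : 𝒱.Obj)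
    (f : W.H Y ≃ₐ[W.K] W.H Y) : Submodule W.K (W.H Y) :=
  Submodule.span W.K {a | ∃ (m : ℕ) (y : W.K), a ∈ W.gr Y m ∧
    a ∈ gE (f.toLinearMap : Module.End W.K (W.H Y)) y ∧ ‖ι y‖ ^ 2 = ‖ι x‖ ^ m}

theorem wsp_top [IsAlgClosed W.K] {Y : 𝒱.Obj} {f : W.H Y ≃ₐ[W.K] W.H Y} (hg : GradedAct W Y f)
    (h : PureAct ι x (W.gr Y) f) (a : W.H Y) : a ∈ wsp W ι x Y f := by
  refine gr_induction (W.isInternal Y) (p := fun a => a ∈ wsp W ι x Y f) ?_ ?_ a
  · intro m a ha
    refine (le_of_gE (g := (f.toLinearMap : Module.End W.K (W.H Y))) (P := W.gr Y m)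
      (Q := wsp W ι x Y f) (fun x hx => hg m x hx) fun μ b hb hb' => ?_) ha
    by_cases hb0 : b = 0
    · rw [hb0]
      exact Submodule.zero_mem _
    obtain ⟨v, ⟨hv1, -⟩, hv0, hv⟩ := exists_eig_in
      (h := (f.toLinearMap : Module.End W.K (W.H Y))) (a := μ)
      (W.gr Y m ⊓ gE (f.toLinearMap : Module.End W.K (W.H Y)) μ)
      (fun t ht => ⟨hg m t ht.1,
        Module.End.mapsTo_maxGenEigenspace_of_comm (Commute.refl _) μ ht.2⟩) inf_le_right
      (fun h0 => hb0 (by
        have h1 : b ∈ W.gr Y m ⊓ gE (f.toLinearMap : Module.End W.K (W.H Y)) μ := ⟨hb, hb'⟩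
        rw [h0] at h1
        exact (Submodule.mem_bot _).1 h1))
    exact Submodule.subset_span ⟨m, μ, hb, hb', h m v hv1 hv0 μ hv⟩
  · intro a b ha hb
    exact Submodule.add_mem _ ha hb

theorem pure_of_wsp {Y : 𝒱.Obj} {f : W.H Y ≃ₐ[W.K] W.H Y} (h : ∀ a, a ∈ wsp W ι x Y f) :
    PureAct ι x (W.gr Y) f := by
  intro m a ha ha0 y hy
  by_contra hne
  apply ha0
  set U : Submodule W.K (W.H Y) :=
    ⨆ (j : W.K) (_ : j ≠ y), gE (f.toLinearMap : Module.End W.K (W.H Y)) j with hU
  have h1 : ∀ z ∈ wsp W ι x Y f, proj (W.isInternal Y) m z ∈ U := by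
    intro z hz
    induction hz using Submodule.span_induction with
    | mem z hz =>
      obtain ⟨l, y', h2, h3, h4⟩ := hz
      by_cases hl : l = m
      · subst hl
        rw [proj_same _ h2]
        have hyy : y' ≠ y := by
          rintro rfl
          exact hne h4
        exact Submodule.mem_iSup_of_mem y' (Submodule.mem_iSup_of_mem hyy h3)
      · rw [proj_ne _ h2 hl]
        exact Submodule.zero_mem _
    | zero => rw [map_zero]; exact Submodule.zero_mem _
    | add x y _ _ hx hy => rw [map_add]; exact Submodule.add_mem _ hx hy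
    | smul q x _ hx => rw [map_smul]; exact Submodule.smul_mem _ _ hx
  have h2 := h1 a (h a)
  rw [proj_same _ ha] at h2
  have h3 : a ∈ gE (f.toLinearMap : Module.End W.K (W.H Y)) y := by
    refine gE_of ?_
    rw [AlgEquiv.toLinearMap_apply, hy, sub_self]
    exact Submodule.zero_mem _
  have h4 := (Module.End.independent_maxGenEigenspace
    (f.toLinearMap : Module.End W.K (W.H Y))) y
  exact (Submodule.disjoint_def.1 h4) a h3 h2

theorem wsp_mul {Y : 𝒱.Obj} {f : W.H Y ≃ₐ[W.K] W.H Y} {a b : W.H Y} (ha : a ∈ wsp W ι x Y f)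
    (hb : b ∈ wsp W ι x Y f) : a * b ∈ wsp W ι x Y f := by
  induction ha using Submodule.span_induction with
  | mem a ha =>
    obtain ⟨l, y, h2, h3, h3'⟩ := ha
    induction hb using Submodule.span_induction with
    | mem b hb =>
      obtain ⟨m, y', h4, h5, h5'⟩ := hb
      refine Submodule.subset_span ⟨l + m, y * y', W.mul_mem h2 h4, gE_prod f h3 h5, ?_⟩
      rw [map_mul, norm_mul, mul_pow, h3', h5', pow_add]
    | zero => rw [mul_zero]; exact Submodule.zero_mem _
    | add x y _ _ hx hy => rw [mul_add]; exact Submodule.add_mem _ hx hy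
    | smul q x _ hx => rw [mul_smul_comm]; exact Submodule.smul_mem _ _ hx
  | zero => rw [zero_mul]; exact Submodule.zero_mem _
  | add x y _ _ hx hy => rw [add_mul]; exact Submodule.add_mem _ hx hy
  | smul q x _ hx => rw [smul_mul_assoc]; exact Submodule.smul_mem _ _ hx

theorem wsp_map {Y Y' : 𝒱.Obj} {f : W.H Y ≃ₐ[W.K] W.H Y} {f' : W.H Y' ≃ₐ[W.K] W.H Y'}
    (π : Y' ⟶ Y) (hπ : ∀ a, f' (W.map π a) = W.map π (f a)) {a : W.H Y}
    (ha : a ∈ wsp W ι x Y f) : W.map π a ∈ wsp W ι x Y' f' := by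
  induction ha using Submodule.span_induction with
  | mem a ha =>
    obtain ⟨l, y, h2, h3, h3'⟩ := ha
    refine Submodule.subset_span ⟨l, y, W.map_mem _ h2, ?_, h3'⟩
    refine gE_ind (h := (f.toLinearMap : Module.End W.K (W.H Y))) (a := y)
      (p := fun a => W.map π a ∈ gE (f'.toLinearMap : Module.End W.K (W.H Y')) y) ?_ ?_ h3
    · rw [map_zero]
      exact Submodule.zero_mem _
    · intro a _ ha'
      refine gE_of ?_
      rw [AlgEquiv.toLinearMap_apply, hπ, ← map_smul, ← map_sub]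
      exact ha'
  | zero => rw [map_zero]; exact Submodule.zero_mem _
  | add x y _ _ hx hy => rw [map_add]; exact Submodule.add_mem _ hx hy
  | smul q x _ hx => rw [map_smul]; exact Submodule.smul_mem _ _ hx

theorem pure_prod [IsAlgClosed W.K] {Γ : Type} [Group Γ] {P : Polarized 𝒱} {n : ℕ} {Z : 𝒱.Obj}
    {ρ : Γ →* (W.H P.X ≃ₐ[W.K] W.H P.X)} {τ : Γ →* (W.H Z ≃ₐ[W.K] W.H Z)}
    {υ : Γ →* (W.H ((nest ops n fun _ => P).X.prod Z) ≃ₐ[W.K]
      W.H ((nest ops n fun _ => P).X.prod Z))} (hP : IsPowAct W P n Z ρ τ υ) {g : Γ}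
    (hρg : GradedAct W P.X (ρ g)) (hτg : GradedAct W Z (τ g))
    (hρ : PureAct ι x (W.gr P.X) (ρ g)) (hτ : PureAct ι x (W.gr Z) (τ g)) :
    PureAct ι x (W.gr _) (υ g) := by
  refine pure_of_wsp (top_of_mul ?_ (fun a ha b hb => wsp_mul ha hb) (fun p a => ?_)
    fun z => wsp_map _ (hP g).2 (wsp_top hτg hτ z))
  · refine Submodule.subset_span ⟨0, 1, W.one_mem _, ?_, ?_⟩
    · refine gE_of ?_
      rw [AlgEquiv.toLinearMap_apply, map_one, one_smul, sub_self]
      exact Submodule.zero_mem _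
    · rw [map_one, norm_one, one_pow, pow_zero]
  · have h1 := wsp_map (f' := υ g) (fst _ Z ≫ prj ops n (fun _ => P) p) (fun a => by
      rw [W.map_comp, W.map_comp]
      exact (hP g).1 p a) (wsp_top hρg hρ a)
    rwa [W.map_comp] at h1

end pure

end Pool.Agent.Y126.MU
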